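import Mathlib
import Pool.Agent.H98R2.Ev.Defs

set_option autoImplicit false

/-!
Matchings inside finite sets of pairs of vertices: greedy existence, covers, counting.
-/

namespace Pool.Agent.N389.EV

open Finset Pool.Agent.H98R2.Ev

variable {n : ℕ}

/-- pairwise vertex-disjoint edges -/
def IsMat (S : Finset (EV (Fin n))) : Prop :=
  ∀ e ∈ S, ∀ e' ∈ S, e ≠ e' → ∀ v, v ∈ e.1 → v ∉ e'.1

/-- the edges of `S` avoid the vertex set `W` -/
def Avd (S : Finset (EV (Fin n))) (W : Finset (Fin n)) : Prop :=
  ∀ e ∈ S, ∀ v ∈ W, v ∉ e.1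

/-- `S` contains `m` pairwise disjoint edges -/
def HasM (m : ℕ) (S : Finset (EV (Fin n))) : Prop := ∃ M ⊆ S, IsMat M ∧ M.card = m

open Classical in
/-- the pairs that meet `W` -/
noncomputable def inc (W : Finset (Fin n)) : Finset (EV (Fin n)) :=
  univ.filter (fun e => ∃ v ∈ W, v ∈ e.1)

theorem mem_inc (W : Finset (Fin n)) (e : EV (Fin n)) : e ∈ inc W ↔ ∃ v ∈ W, v ∈ e.1 := by
  unfold inc
  simp

theorem inc_card (W : Finset (Fin n)) : (inc W).card ≤ W.card * n := by
  classical
  have h1 : (inc W).card = ((inc W).image Subtype.val).card := by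
    rw [card_image_of_injective _ Subtype.val_injective]
  have h2 : (inc W).image Subtype.val ⊆
      (W ×ˢ (univ : Finset (Fin n))).image (fun p => s(p.1, p.2)) := by
    intro x hx
    obtain ⟨e, he, rfl⟩ := mem_image.1 hx
    obtain ⟨v, hv, hve⟩ := (mem_inc W e).1 he
    obtain ⟨w, hw⟩ := hve
    rw [mem_image]
    exact ⟨(v, w), by simp [hv], hw.symm⟩
  rw [h1]
  refine (card_le_card h2).trans (card_image_le.trans ?_)
  rw [card_product, card_univ, Fintype.card_fin]

theorem isMat_mono {S T : Finset (EV (Fin n))} (h : S ⊆ T) (hT : IsMat T) : IsMat S :=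
  fun e he e' he' => hT e (h he) e' (h he')

theorem isMat_empty : IsMat (∅ : Finset (EV (Fin n))) := by
  intro e he
  simp at he

theorem hasM_mono {m : ℕ} {S T : Finset (EV (Fin n))} (h : S ⊆ T) (hS : HasM m S) : HasM m T := by
  obtain ⟨M, h1, h2, h3⟩ := hS
  exact ⟨M, h1.trans h, h2, h3⟩

/-- an edge avoiding the vertices of a matching can be added -/
theorem isMat_insert {M : Finset (EV (Fin n))} {e : EV (Fin n)} (hM : IsMat M)
    (he : ∀ e' ∈ M, ∀ v, v ∈ e.1 → v ∉ e'.1) : IsMat (insert e M) := by
  intro e1 h1 e2 h2 hne v hv1 hv2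
  rw [mem_insert] at h1 h2
  rcases h1 with rfl | h1
  · rcases h2 with rfl | h2
    · exact hne rfl
    · exact he e2 h2 v hv1 hv2
  · rcases h2 with rfl | h2
    · exact he e1 h1 v hv2 hv1
    · exact hM e1 h1 e2 h2 hne v hv1 hv2

theorem ends (e : EV (Fin n)) : ∃ a b : Fin n, e.1 = s(a, b) ∧ a ≠ b := by
  obtain ⟨x, hx⟩ := e
  induction x using Sym2.ind with
  | _ a b => exact ⟨a, b, rfl, by simpa using hx⟩

theorem ins2_card (a b : Fin n) (W : Finset (Fin n)) :
    (insert a (insert b W)).card ≤ W.card + 2 := by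
  have h1 := card_insert_le b W
  have h2 := card_insert_le a (insert b W)
  omega

theorem exists_mat (hn : 0 < n) (S : Finset (EV (Fin n))) (k : ℕ) : ∀ W : Finset (Fin n),
    (W.card + 2 * k) * n ≤ S.card → ∃ M ⊆ S, IsMat M ∧ M.card = k ∧ Avd M W := by
  classical
  induction k with
  | zero => 
    intro W _
    exact ⟨∅, empty_subset _, isMat_empty, rfl, by intro e he; simp at he⟩
  | succ k ih =>
    intro W hW
    have hex : ∃ e ∈ S, e ∉ inc W := by
      by_contra hcon
      push Not at hcon
      have h1 : S.card ≤ W.card * n := (card_le_card hcon).trans (inc_card W)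
      have h2 : W.card * n < (W.card + 2 * (k + 1)) * n :=
        Nat.mul_lt_mul_of_pos_right (by omega) hn
      omega
    obtain ⟨e, heS, heW⟩ := hex
    obtain ⟨a, b, hab, _⟩ := ends e
    obtain ⟨M, hM1, hM2, hM3, hM4⟩ := ih (insert a (insert b W)) (by
      refine le_trans (Nat.mul_le_mul_right n ?_) hW
      have := ins2_card a b W
      omega)
    have hdis : ∀ e' ∈ M, ∀ v, v ∈ e.1 → v ∉ e'.1 := by
      intro e' he' v hv
      apply hM4 e' he' v
      rw [hab, Sym2.mem_iff] at hv
      rcases hv with rfl | rfl <;> simp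
    have heM : e ∉ M := by
      intro h
      exact hdis e h a (by rw [hab]; simp) (by rw [hab]; simp)
    refine ⟨insert e M, insert_subset heS hM1, isMat_insert hM2 hdis, ?_, ?_⟩
    · rw [card_insert_of_notMem heM, hM3]
    · intro e' he' v hv
      rw [mem_insert] at he'
      rcases he' with rfl | he'
      · intro hv'
        exact heW ((mem_inc W _).2 ⟨v, hv, hv'⟩)
      · exact hM4 e' he' v (by simp [hv])

/-- a set without `m + 1` disjoint edges avoiding `W` is covered by few vertices -/
theorem cover_aux (S : Finset (EV (Fin n))) (m : ℕ) : ∀ W : Finset (Fin n),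
    (¬ ∃ M ⊆ S, IsMat M ∧ M.card = m + 1 ∧ Avd M W) →
    ∃ X : Finset (Fin n), X.card ≤ W.card + 2 * m ∧ S ⊆ inc X := by
  classical
  induction m with
  | zero =>
    intro W h
    refine ⟨W, by omega, ?_⟩
    intro e he
    by_contra hcon
    apply h
    refine ⟨{e}, by simpa using he, ?_, by simp, ?_⟩
    · intro e1 h1 e2 h2 hne
      rw [mem_singleton] at h1 h2
      exact absurd (h1.trans h2.symm) hne
    · intro e' he' v hv hv'
      rw [mem_singleton] at he'
      subst he'
      exact hcon ((mem_inc W _).2 ⟨v, hv, hv'⟩)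
  | succ m ih =>
    intro W h
    by_cases hex : ∃ e ∈ S, e ∉ inc W
    · obtain ⟨e, heS, heW⟩ := hex
      obtain ⟨a, b, hab, _⟩ := ends e
      obtain ⟨X, hX1, hX2⟩ := ih (insert a (insert b W)) (by
        rintro ⟨M, hM1, hM2, hM3, hM4⟩
        apply h
        have hdis : ∀ e' ∈ M, ∀ v, v ∈ e.1 → v ∉ e'.1 := by
          intro e' he' v hv
          apply hM4 e' he' v
          rw [hab, Sym2.mem_iff] at hv
          rcases hv with rfl | rfl <;> simp
        have heM : e ∉ M := by
          intro h
          exact hdis e h a (by rw [hab]; simp) (by rw [hab]; simp)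
        refine ⟨insert e M, insert_subset heS hM1, isMat_insert hM2 hdis, ?_, ?_⟩
        · rw [card_insert_of_notMem heM, hM3]
        · intro e' he' v hv
          rw [mem_insert] at he'
          rcases he' with rfl | he'
          · intro hv'
            exact heW ((mem_inc W _).2 ⟨v, hv, hv'⟩)
          · exact hM4 e' he' v (by simp [hv]))
      refine ⟨X, ?_, hX2⟩
      have := ins2_card a b W
      omega
    · push Not at hex
      exact ⟨W, by omega, hex⟩

theorem cover (S : Finset (EV (Fin n))) (m : ℕ) (h : ¬ HasM (m + 1) S) :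
    ∃ X : Finset (Fin n), X.card ≤ 2 * m ∧ S ⊆ inc X := by
  obtain ⟨X, h1, h2⟩ := cover_aux S m ∅ (by
    rintro ⟨M, hM1, hM2, hM3, _⟩
    exact h ⟨M, hM1, hM2, hM3⟩)
  exact ⟨X, by simpa using h1, h2⟩

open Classical in
/-- few sets of size `j` have no `m + 1` disjoint edges -/
theorem count_noM (m j : ℕ) :
    ((univ : Finset (Finset (EV (Fin n)))).filter (fun S => S.card = j ∧ ¬ HasM (m + 1) S)).card ≤
      2 ^ n * (2 * m * n).choose j := by
  have h1 : (univ : Finset (Finset (EV (Fin n)))).filter (fun S => S.card = j ∧ ¬ HasM (m + 1) S) ⊆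
      ((univ : Finset (Finset (Fin n))).filter (fun X => X.card ≤ 2 * m)).biUnion
        (fun X => (inc X).powersetCard j) := by
    intro S hS
    rw [mem_filter] at hS
    obtain ⟨X, hX1, hX2⟩ := cover S m hS.2.2
    rw [mem_biUnion]
    exact ⟨X, by simp [hX1], by rw [mem_powersetCard]; exact ⟨hX2, hS.2.1⟩⟩
  refine (card_le_card h1).trans (card_biUnion_le.trans ?_)
  calc ∑ X ∈ (univ : Finset (Finset (Fin n))).filter (fun X => X.card ≤ 2 * m),
        ((inc X).powersetCard j).card ≤
      ∑ X ∈ (univ : Finset (Finset (Fin n))).filter (fun X => X.card ≤ 2 * m),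
        (2 * m * n).choose j := by
        apply sum_le_sum
        intro X hX
        rw [mem_filter] at hX
        rw [card_powersetCard]
        apply Nat.choose_le_choose
        exact (inc_card X).trans (Nat.mul_le_mul_right n hX.2)
    _ ≤ 2 ^ n * (2 * m * n).choose j := by
        rw [sum_const, smul_eq_mul]
        apply Nat.mul_le_mul_right
        refine (card_filter_le _ _).trans ?_
        rw [card_univ, Fintype.card_finset, Fintype.card_fin]

theorem descFactorial_four (a j : ℕ) :
    4 ^ j * a.descFactorial j ≤ (4 * a).descFactorial j := by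
  induction j with
  | zero => simp
  | succ j ih =>
    rw [Nat.descFactorial_succ, Nat.descFactorial_succ, pow_succ]
    calc 4 ^ j * 4 * ((a - j) * a.descFactorial j) =
        (4 * (a - j)) * (4 ^ j * a.descFactorial j) := by ring
      _ ≤ (4 * a - j) * (4 * a).descFactorial j := by
        apply Nat.mul_le_mul _ ih
        omega

theorem choose_four (a j : ℕ) : 4 ^ j * a.choose j ≤ (4 * a).choose j := by
  have h := descFactorial_four a j
  rw [Nat.descFactorial_eq_factorial_mul_choose, Nat.descFactorial_eq_factorial_mul_choose] at h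
  have h2 : j.factorial * (4 ^ j * a.choose j) ≤ j.factorial * (4 * a).choose j := by
    calc j.factorial * (4 ^ j * a.choose j) = 4 ^ j * (j.factorial * a.choose j) := by ring
      _ ≤ _ := h
  exact Nat.le_of_mul_le_mul_left h2 (Nat.factorial_pos j)

theorem numeric_choose (n a b j : ℕ) (hab : 4 * a ≤ b) (hj : n ≤ j) (hn : 0 < n) (hjb : j ≤ b) :
    2 ^ n * a.choose j < b.choose j := by
  rcases Nat.eq_zero_or_pos (a.choose j) with h0 | h0
  · rw [h0, mul_zero]
    exact Nat.choose_pos hjb
  · calc 2 ^ n * a.choose j < 4 ^ j * a.choose j := by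
          apply Nat.mul_lt_mul_of_pos_right _ h0
          calc 2 ^ n ≤ 2 ^ j := Nat.pow_le_pow_right (by norm_num) hj
            _ < 4 ^ j := Nat.pow_lt_pow_left (by norm_num) (by omega)
      _ ≤ (4 * a).choose j := choose_four a j
      _ ≤ b.choose j := Nat.choose_le_choose j hab

end Pool.Agent.N389.EV
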