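import Mathlib
import Pool.Agent.H98R2.Ev.Defs
import Pool.Agent.N389.EV.Mat

set_option autoImplicit false

/-!
Matchings of the same size differ by a permutation of the vertices; the exchange property that
follows from one coincidence of restrictions of an invariant function to a matching.
-/

namespace Pool.Agent.N389.EV

open Finset Pool.Agent.H98R2.Ev

variable {n : ℕ}

theorem exists_ends : ∃ en : EV (Fin n) → Bool → Fin n, ∀ e : EV (Fin n),
    e.1 = s(en e true, en e false) ∧ en e true ≠ en e false := by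
  have h : ∀ e : EV (Fin n), ∃ g : Bool → Fin n, e.1 = s(g true, g false) ∧ g true ≠ g false := by
    intro e
    obtain ⟨a, b, h1, h2⟩ := ends e
    exact ⟨fun x => if x then a else b, by simpa using h1, by simpa using h2⟩
  choose en hen using h
  exact ⟨en, hen⟩

/-- an injection of a matching onto a matching is induced by a permutation of the vertices -/
theorem exists_perm (S : Finset (EV (Fin n))) (hS : IsMat S) (β : EV (Fin n) → EV (Fin n))
    (hβ : ∀ e ∈ S, ∀ e' ∈ S, e ≠ e' → ∀ v, v ∈ (β e).1 → v ∉ (β e').1) :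
    ∃ σ : Equiv.Perm (Fin n), ∀ e ∈ S, ep σ e = β e := by
  classical
  obtain ⟨en, hen⟩ := exists_ends (n := n)
  have hmem : ∀ (e : EV (Fin n)) (b : Bool), en e b ∈ e.1 := by
    intro e b
    rw [(hen e).1]
    cases b <;> simp
  have hne : ∀ (e : EV (Fin n)) (b b' : Bool), en e b = en e b' → b = b' := by
    intro e b b' h
    have := (hen e).2
    cases b <;> cases b'
    · rfl
    · exact absurd h.symm this
    · exact absurd h this
    · rfl
  let φ₁ : {e // e ∈ S} × Bool → Fin n := fun p => en p.1.1 p.2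
  let φ₂ : {e // e ∈ S} × Bool → Fin n := fun p => en (β p.1.1) p.2
  have h₁ : Function.Injective φ₁ := by
    rintro ⟨⟨e, he⟩, b⟩ ⟨⟨e', he'⟩, b'⟩ h
    simp only [φ₁] at h
    have hee : e = e' := by
      by_contra hcon
      exact hS e he e' he' hcon _ (hmem e b) (h ▸ hmem e' b')
    subst hee
    have := hne e b b' h
    subst this
    rfl
  have h₂ : Function.Injective φ₂ := by
    rintro ⟨⟨e, he⟩, b⟩ ⟨⟨e', he'⟩, b'⟩ h
    simp only [φ₂] at h
    have hee : e = e' := by
      by_contra hcon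
      exact hβ e he e' he' hcon _ (hmem (β e) b) (h ▸ hmem (β e') b')
    subst hee
    have := hne _ b b' h
    subst this
    rfl
  let E0 : {x // x ∈ Set.range φ₁} ≃ {x // x ∈ Set.range φ₂} :=
    (Equiv.ofInjective φ₁ h₁).symm.trans (Equiv.ofInjective φ₂ h₂)
  refine ⟨E0.extendSubtype, ?_⟩
  have hE : ∀ p, E0.extendSubtype (φ₁ p) = φ₂ p := by
    intro p
    rw [Equiv.extendSubtype_apply_of_mem E0 (φ₁ p) ⟨p, rfl⟩]
    simp only [E0, Equiv.trans_apply]
    have h3 : (Equiv.ofInjective φ₁ h₁).symm ⟨φ₁ p, ⟨p, rfl⟩⟩ = p := by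
      rw [Equiv.symm_apply_eq]
      rfl
    rw [h3]
    rfl
  intro e he
  apply Subtype.ext
  show Sym2.map E0.extendSubtype e.1 = (β e).1
  rw [(hen e).1, (hen (β e)).1, Sym2.map_mk]
  have e1 := hE (⟨e, he⟩, true)
  have e2 := hE (⟨e, he⟩, false)
  simp only [φ₁, φ₂] at e1 e2
  rw [e1, e2]

theorem exists_bij (A A' : Finset (EV (Fin n))) (h : A.card = A'.card) :
    ∃ β : EV (Fin n) → EV (Fin n), Set.BijOn β A A' := by
  classical
  rcases A.eq_empty_or_nonempty with h0 | ⟨e, he⟩
  · subst h0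
    have : A' = ∅ := by
      rw [← card_eq_zero, ← h, card_empty]
    subst this
    exact ⟨id, by simp⟩
  · have : Nonempty (EV (Fin n)) := ⟨e⟩
    apply Set.Finite.exists_bijOn_of_encard_eq (Set.toFinite _)
    rw [Set.encard_coe_eq_coe_finsetCard, Set.encard_coe_eq_coe_finsetCard, h]

theorem exists_bij2 (A A' B B' : Finset (EV (Fin n))) (hAB : Disjoint A B)
    (hA : A.card = A'.card) (hB : B.card = B'.card) :
    ∃ β : EV (Fin n) → EV (Fin n), Set.BijOn β A A' ∧ Set.BijOn β B B' := by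
  classical
  obtain ⟨β₁, h₁⟩ := exists_bij A A' hA
  obtain ⟨β₂, h₂⟩ := exists_bij B B' hB
  refine ⟨fun e => if e ∈ A then β₁ e else β₂ e, ?_, ?_⟩
  · refine (Set.EqOn.bijOn_iff ?_).1 h₁
    intro e he
    have : e ∈ A := he
    simp [this]
  · refine (Set.EqOn.bijOn_iff ?_).1 h₂
    intro e he
    have h1 : e ∈ B := he
    have : e ∉ A := fun h => disjoint_left.1 hAB h h1
    simp [this]

theorem bijOn_image {A A' : Finset (EV (Fin n))} {β : EV (Fin n) → EV (Fin n)}
    (h : Set.BijOn β A A') : A.image β = A' := by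
  classical
  apply coe_injective
  rw [coe_image]
  exact h.image_eq

/-- two pairs of disjoint matchings differ by a permutation -/
theorem move (M₁ M₂ N₁ N₂ : Finset (EV (Fin n))) (hM : IsMat (M₁ ∪ M₂)) (hN : IsMat (N₁ ∪ N₂))
    (dM : Disjoint M₁ M₂) (dN : Disjoint N₁ N₂) (h₁ : M₁.card = N₁.card)
    (h₂ : M₂.card = N₂.card) :
    ∃ σ : Equiv.Perm (Fin n), M₁.image (ep σ) = N₁ ∧ M₂.image (ep σ) = N₂ := by
  classical
  obtain ⟨β, hb1, hb2⟩ := exists_bij2 M₁ N₁ M₂ N₂ dM h₁ h₂
  have hinj : ∀ e ∈ M₁ ∪ M₂, ∀ e' ∈ M₁ ∪ M₂, e ≠ e' → ∀ v, v ∈ (β e).1 → v ∉ (β e').1 := by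
    intro e he e' he' hne
    have m1 : ∀ x ∈ M₁, β x ∈ N₁ := fun x hx => hb1.mapsTo hx
    have m2 : ∀ x ∈ M₂, β x ∈ N₂ := fun x hx => hb2.mapsTo hx
    have hbe : β e ∈ N₁ ∪ N₂ := by
      rcases mem_union.1 he with h | h
      · exact mem_union_left _ (m1 _ h)
      · exact mem_union_right _ (m2 _ h)
    have hbe' : β e' ∈ N₁ ∪ N₂ := by
      rcases mem_union.1 he' with h | h
      · exact mem_union_left _ (m1 _ h)
      · exact mem_union_right _ (m2 _ h)
    apply hN _ hbe _ hbe'
    intro heq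
    rcases mem_union.1 he with h | h <;> rcases mem_union.1 he' with h' | h'
    · exact hne (hb1.injOn h h' heq)
    · have := m1 _ h
      rw [heq] at this
      exact disjoint_left.1 dN this (m2 _ h')
    · have := m1 _ h'
      rw [← heq] at this
      exact disjoint_left.1 dN this (m2 _ h)
    · exact hne (hb2.injOn h h' heq)
  obtain ⟨σ, hσ⟩ := exists_perm (M₁ ∪ M₂) hM β hinj
  refine ⟨σ, ?_, ?_⟩
  · rw [← bijOn_image hb1]
    apply image_congr
    intro e he
    exact hσ e (mem_union_left _ he)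
  · rw [← bijOn_image hb2]
    apply image_congr
    intro e he
    exact hσ e (mem_union_right _ he)

section Coinc

variable (f : Finset (EV (Fin n)) → Prop)

/-- a coincidence of two restrictions is carried to every copy -/
theorem transfer (hinv : ∀ (σ : Equiv.Perm (Fin n)) (S : Finset (EV (Fin n))),
      f (S.image (ep σ)) ↔ f S)
    (M A A' : Finset (EV (Fin n))) (hM : IsMat M) (hA : A ⊆ M) (hA' : A' ⊆ M)
    (hrel : ∀ y, Disjoint y M → (f (A ∪ y) ↔ f (A' ∪ y)))
    (β : EV (Fin n) → EV (Fin n))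
    (hβ : ∀ e ∈ M, ∀ e' ∈ M, e ≠ e' → ∀ v, v ∈ (β e).1 → v ∉ (β e').1)
    (y : Finset (EV (Fin n))) (hy : Disjoint y (M.image β)) :
    f (A.image β ∪ y) ↔ f (A'.image β ∪ y) := by
  classical
  obtain ⟨σ, hσ⟩ := exists_perm M hM β hβ
  have i1 : A.image β = A.image (ep σ) := image_congr fun e he => (hσ e (hA he)).symm
  have i2 : A'.image β = A'.image (ep σ) := image_congr fun e he => (hσ e (hA' he)).symm
  have i3 : M.image β = M.image (ep σ) := image_congr fun e he => (hσ e he).symm
  have hy2 : (y.image (ep σ).symm).image (ep σ) = y := by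
    rw [image_image]
    simp
  rw [i1, i2, ← hy2, ← image_union, ← image_union, hinv, hinv]
  apply hrel
  rw [i3] at hy
  rw [disjoint_left] at hy ⊢
  intro e he heM
  obtain ⟨e', he', rfl⟩ := mem_image.1 he
  apply hy he'
  rw [mem_image]
  exact ⟨_, heM, by simp⟩

/-- **exchange**: two edges far from the matchings `C`, `D` can be exchanged -/
theorem exch (hinv : ∀ (σ : Equiv.Perm (Fin n)) (S : Finset (EV (Fin n))),
      f (S.image (ep σ)) ↔ f S)
    (M A A' : Finset (EV (Fin n))) (hM : IsMat M) (hA : A ⊆ M) (hA' : A' ⊆ M)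
    (hrel : ∀ y, Disjoint y M → (f (A ∪ y) ↔ f (A' ∪ y)))
    (e₀ : EV (Fin n)) (h0' : e₀ ∈ A') (h0 : e₀ ∉ A)
    (z C D : Finset (EV (Fin n))) (hC : (A'.erase e₀).card = C.card)
    (hD : (M \ A').card = D.card) (hCz : C ⊆ z) (hDz : Disjoint D z) (hCD : IsMat (C ∪ D))
    (e₁ e₂ : EV (Fin n)) (h1 : ∀ e ∈ C ∪ D, ∀ v, v ∈ e₁.1 → v ∉ e.1)
    (h2 : ∀ e ∈ C ∪ D, ∀ v, v ∈ e₂.1 → v ∉ e.1) (h1z : e₁ ∉ z) (h2z : e₂ ∉ z) :
    f (insert e₁ z) ↔ f (insert e₂ z) := by
  classical
  have dis : Disjoint (A'.erase e₀) (M \ A') := by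
    rw [disjoint_left]
    intro e he he'
    exact (mem_sdiff.1 he').2 (mem_of_mem_erase he)
  obtain ⟨β, hb1, hb2⟩ := exists_bij2 (A'.erase e₀) C (M \ A') D dis hC hD
  have m1 : ∀ x ∈ A'.erase e₀, β x ∈ C := fun x hx => hb1.mapsTo hx
  have m2 : ∀ x ∈ M \ A', β x ∈ D := fun x hx => hb2.mapsTo hx
  have hCDd : Disjoint C D := by
    rw [disjoint_left]
    intro e he he'
    exact disjoint_left.1 hDz he' (hCz he)
  have hMsplit : ∀ e ∈ M, e ≠ e₀ → e ∈ A'.erase e₀ ∨ e ∈ M \ A' := by
    intro e he hne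
    by_cases h : e ∈ A'
    · exact Or.inl (mem_erase.2 ⟨hne, h⟩)
    · exact Or.inr (mem_sdiff.2 ⟨he, h⟩)
  have hmCD : ∀ e ∈ M, e ≠ e₀ → β e ∈ C ∪ D := by
    intro e he hne
    rcases hMsplit e he hne with h | h
    · exact mem_union_left _ (m1 _ h)
    · exact mem_union_right _ (m2 _ h)
  have hinj : ∀ e ∈ M, ∀ e' ∈ M, e ≠ e₀ → e' ≠ e₀ → e ≠ e' → β e ≠ β e' := by
    intro e he e' he' hne hne' hee heq
    rcases hMsplit e he hne with h | h <;> rcases hMsplit e' he' hne' with h' | h'
    · exact hee (hb1.injOn h h' heq)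
    · have := m1 _ h
      rw [heq] at this
      exact disjoint_left.1 hCDd this (m2 _ h')
    · have := m1 _ h'
      rw [← heq] at this
      exact disjoint_left.1 hCDd this (m2 _ h)
    · exact hee (hb2.injOn h h' heq)
  -- the key formula
  have key : ∀ e₃ : EV (Fin n), (∀ e ∈ C ∪ D, ∀ v, v ∈ e₃.1 → v ∉ e.1) → e₃ ∉ z →
      (f (insert e₃ z) ↔ f (A.image β ∪ (z \ C))) := by
    intro e₃ h3 h3z
    set β' : EV (Fin n) → EV (Fin n) := fun e => if e = e₀ then e₃ else β e with hβ'
    have b0 : β' e₀ = e₃ := by simp [hβ']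
    have b1 : ∀ e, e ≠ e₀ → β' e = β e := by
      intro e he
      simp [hβ', he]
    have hβ'dis : ∀ e ∈ M, ∀ e' ∈ M, e ≠ e' → ∀ v, v ∈ (β' e).1 → v ∉ (β' e').1 := by
      intro e he e' he' hne v hv hv'
      by_cases c : e = e₀
      · subst c
        rw [b0] at hv
        rw [b1 e' (Ne.symm hne)] at hv'
        exact h3 _ (hmCD e' he' (Ne.symm hne)) v hv hv'
      · by_cases c' : e' = e₀
        · subst c'
          rw [b0] at hv'
          rw [b1 e c] at hv
          exact h3 _ (hmCD e he c) v hv' hv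
        · rw [b1 e c] at hv
          rw [b1 e' c'] at hv'
          exact hCD _ (hmCD e he c) _ (hmCD e' he' c') (hinj e he e' he' c c' hne) v hv hv'
    have iA : A.image β' = A.image β := by
      apply image_congr
      intro e he
      exact b1 e (fun h => h0 (h ▸ he))
    have iA' : A'.image β' = insert e₃ C := by
      rw [← insert_erase h0', image_insert, b0, ← bijOn_image hb1]
      congr 1
      apply image_congr
      intro e he
      exact b1 e (ne_of_mem_erase he)
    have hy : Disjoint (z \ C) (M.image β') := by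
      rw [disjoint_left]
      intro e he heM
      rw [mem_sdiff] at he
      obtain ⟨e', he', rfl⟩ := mem_image.1 heM
      by_cases c : e' = e₀
      · subst c
        rw [b0] at he
        exact h3z he.1
      · rw [b1 e' c] at he
        rcases mem_union.1 (hmCD e' he' c) with h | h
        · exact he.2 h
        · exact disjoint_left.1 hDz h he.1
    have ht := transfer f hinv M A A' hM hA hA' hrel β' hβ'dis (z \ C) hy
    rw [iA, iA'] at ht
    have hz : insert e₃ C ∪ (z \ C) = insert e₃ z := by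
      rw [insert_union, union_sdiff_of_subset hCz]
    rw [hz] at ht
    exact ht.symm
  rw [key e₁ h1 h1z, key e₂ h2 h2z]

theorem card_touch (S : Finset (EV (Fin n))) (hS : IsMat S) (v : Fin n) :
    (S.filter (fun e => v ∈ e.1)).card ≤ 1 := by
  rw [card_le_one]
  intro a ha b hb
  rw [mem_filter] at ha hb
  by_contra hne
  exact hS a ha.1 b hb.1 hne v ha.2 hb.2

open Classical in
/-- at most four edges of a matching meet one of two given edges -/
theorem far_card (S : Finset (EV (Fin n))) (hS : IsMat S) (e₁ e₂ : EV (Fin n)) :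
    S.card ≤ (S.filter (fun e => (∀ v, v ∈ e₁.1 → v ∉ e.1) ∧ (∀ v, v ∈ e₂.1 → v ∉ e.1))).card
      + 4 := by
  obtain ⟨a, b, hab, _⟩ := ends e₁
  obtain ⟨c, d, hcd, _⟩ := ends e₂
  have hsub : S ⊆ (S.filter (fun e => (∀ v, v ∈ e₁.1 → v ∉ e.1) ∧ (∀ v, v ∈ e₂.1 → v ∉ e.1))) ∪
      (((S.filter (fun e => a ∈ e.1)) ∪ (S.filter (fun e => b ∈ e.1))) ∪
      ((S.filter (fun e => c ∈ e.1)) ∪ (S.filter (fun e => d ∈ e.1)))) := by
    intro e he
    by_cases h1 : a ∈ e.1
    · simp [he, h1]
    by_cases h2 : b ∈ e.1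
    · simp [he, h2]
    by_cases h3 : c ∈ e.1
    · simp [he, h3]
    by_cases h4 : d ∈ e.1
    · simp [he, h4]
    rw [mem_union]
    left
    rw [mem_filter]
    refine ⟨he, ?_, ?_⟩
    · intro v hv
      rw [hab, Sym2.mem_iff] at hv
      rcases hv with rfl | rfl <;> assumption
    · intro v hv
      rw [hcd, Sym2.mem_iff] at hv
      rcases hv with rfl | rfl <;> assumption
  have h1 := card_le_card hsub
  have h2 := card_union_le (S.filter (fun e => (∀ v, v ∈ e₁.1 → v ∉ e.1) ∧
    (∀ v, v ∈ e₂.1 → v ∉ e.1))) (((S.filter (fun e => a ∈ e.1)) ∪ (S.filter (fun e => b ∈ e.1))) ∪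
      ((S.filter (fun e => c ∈ e.1)) ∪ (S.filter (fun e => d ∈ e.1))))
  have h3 := card_union_le ((S.filter (fun e => a ∈ e.1)) ∪ (S.filter (fun e => b ∈ e.1)))
    ((S.filter (fun e => c ∈ e.1)) ∪ (S.filter (fun e => d ∈ e.1)))
  have h4 := card_union_le (S.filter (fun e => a ∈ e.1)) (S.filter (fun e => b ∈ e.1))
  have h5 := card_union_le (S.filter (fun e => c ∈ e.1)) (S.filter (fun e => d ∈ e.1))
  have ta := card_touch S hS a
  have tb := card_touch S hS b
  have tc := card_touch S hS c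
  have td := card_touch S hS d
  omega

/-- the value on graphs that contain `M₁` and avoid `M₂` depends only on the number of edges -/
theorem sym_on (hinv : ∀ (σ : Equiv.Perm (Fin n)) (S : Finset (EV (Fin n))),
      f (S.image (ep σ)) ↔ f S)
    (M A A' : Finset (EV (Fin n))) (hM : IsMat M) (hA : A ⊆ M) (hA' : A' ⊆ M)
    (hrel : ∀ y, Disjoint y M → (f (A ∪ y) ↔ f (A' ∪ y)))
    (e₀ : EV (Fin n)) (h0' : e₀ ∈ A') (h0 : e₀ ∉ A)
    (M₁ M₂ : Finset (EV (Fin n))) (hM12 : IsMat (M₁ ∪ M₂)) (c1 : A'.card + 3 ≤ M₁.card)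
    (c2 : (M \ A').card + 4 ≤ M₂.card) (k : ℕ) : ∀ x y : Finset (EV (Fin n)), (x \ y).card = k →
      M₁ ⊆ x → M₁ ⊆ y → Disjoint M₂ x → Disjoint M₂ y → x.card = y.card → (f x ↔ f y) := by
  classical
  have swap : ∀ (z : Finset (EV (Fin n))) (e₁ e₂ : EV (Fin n)), M₁ ⊆ z → Disjoint M₂ z →
      e₁ ∉ z → e₂ ∉ z → (f (insert e₁ z) ↔ f (insert e₂ z)) := by
    intro z e₁ e₂ hz1 hz2 h1 h2
    have b1 : (A'.erase e₀).card ≤ (M₁.filter (fun e => (∀ v, v ∈ e₁.1 → v ∉ e.1) ∧
        (∀ v, v ∈ e₂.1 → v ∉ e.1))).card := by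
      have := far_card M₁ (isMat_mono subset_union_left hM12) e₁ e₂
      have h3 := card_erase_lt_of_mem h0'
      omega
    have b2 : (M \ A').card ≤ (M₂.filter (fun e => (∀ v, v ∈ e₁.1 → v ∉ e.1) ∧
        (∀ v, v ∈ e₂.1 → v ∉ e.1))).card := by
      have := far_card M₂ (isMat_mono subset_union_right hM12) e₁ e₂
      omega
    obtain ⟨C, hC1, hC2⟩ := exists_subset_card_eq b1
    obtain ⟨D, hD1, hD2⟩ := exists_subset_card_eq b2
    have hCM : C ⊆ M₁ := hC1.trans (filter_subset _ _)
    have hDM : D ⊆ M₂ := hD1.trans (filter_subset _ _)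
    refine exch f hinv M A A' hM hA hA' hrel e₀ h0' h0 z C D hC2.symm hD2.symm
      (hCM.trans hz1) (disjoint_of_subset_left hDM hz2)
      (isMat_mono (union_subset_union hCM hDM) hM12) e₁ e₂ ?_ ?_ h1 h2
    · intro e he
      rcases mem_union.1 he with h | h
      · exact (mem_filter.1 (hC1 h)).2.1
      · exact (mem_filter.1 (hD1 h)).2.1
    · intro e he
      rcases mem_union.1 he with h | h
      · exact (mem_filter.1 (hC1 h)).2.2
      · exact (mem_filter.1 (hD1 h)).2.2
  induction k with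
  | zero =>
    intro x y hk _ _ _ _ hxy
    have hsub : x ⊆ y := by
      rw [card_eq_zero, sdiff_eq_empty_iff_subset] at hk
      exact hk
    rw [eq_of_subset_of_card_le hsub hxy.symm.le]
  | succ k ih =>
    intro x y hk hx1 hy1 hx2 hy2 hxy
    have hne : (x \ y).Nonempty := by
      rw [← card_pos, hk]; omega
    obtain ⟨e₁, he₁⟩ := hne
    rw [mem_sdiff] at he₁
    have hne2 : (y \ x).Nonempty := by
      have h1 := card_sdiff_add_card_inter x y
      have h2 := card_sdiff_add_card_inter y x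
      rw [inter_comm] at h2
      rw [← card_pos]
      omega
    obtain ⟨e₂, he₂⟩ := hne2
    rw [mem_sdiff] at he₂
    have hz1 : M₁ ⊆ x.erase e₁ := by
      intro e he
      rw [mem_erase]
      exact ⟨fun h => he₁.2 (h ▸ hy1 he), hx1 he⟩
    have hz2 : Disjoint M₂ (x.erase e₁) := disjoint_of_subset_right (erase_subset _ _) hx2
    have hs := swap (x.erase e₁) e₁ e₂ hz1 hz2 (by simp) (by
      intro h
      exact he₂.2 (mem_of_mem_erase h))
    rw [insert_erase he₁.1] at hs
    rw [hs]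
    have he21 : e₂ ∉ x.erase e₁ := fun h => he₂.2 (mem_of_mem_erase h)
    apply ih
    · have h3 : insert e₂ (x.erase e₁) \ y = (x \ y).erase e₁ := by
        ext e
        simp only [mem_sdiff, mem_insert, mem_erase]
        constructor
        · rintro ⟨rfl | ⟨h4, h5⟩, h6⟩
          · exact absurd he₂.1 h6
          · exact ⟨h4, h5, h6⟩
        · rintro ⟨h4, h5, h6⟩
          exact ⟨Or.inr ⟨h4, h5⟩, h6⟩
      rw [h3, card_erase_of_mem (mem_sdiff.2 he₁), hk]
      rfl
    · exact hz1.trans (subset_insert _ _)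
    · exact hy1
    · rw [disjoint_insert_right]
      exact ⟨fun h => disjoint_left.1 hy2 h he₂.1, hz2⟩
    · exact hy2
    · rw [card_insert_of_notMem he21, card_erase_of_mem he₁.1, ← hxy]
      have : 0 < x.card := card_pos.2 ⟨e₁, he₁.1⟩
      omega

/-- `x` contains `m` disjoint edges and misses `m` further edges disjoint from each other and from
the first ones -/
def Good (m : ℕ) (x : Finset (EV (Fin n))) : Prop :=
  ∃ M₁ M₂ : Finset (EV (Fin n)), M₁ ⊆ x ∧ Disjoint M₂ x ∧ IsMat (M₁ ∪ M₂) ∧ M₁.card = m ∧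
    M₂.card = m

/-- the value on good graphs depends only on the number of edges -/
theorem good_sym (hinv : ∀ (σ : Equiv.Perm (Fin n)) (S : Finset (EV (Fin n))),
      f (S.image (ep σ)) ↔ f S)
    (M A A' : Finset (EV (Fin n))) (hM : IsMat M) (hA : A ⊆ M) (hA' : A' ⊆ M) (hne : A ≠ A')
    (hrel : ∀ y, Disjoint y M → (f (A ∪ y) ↔ f (A' ∪ y))) (m : ℕ)
    (k1 : A.card + 3 ≤ m) (k2 : A'.card + 3 ≤ m) (k3 : (M \ A).card + 4 ≤ m)
    (k4 : (M \ A').card + 4 ≤ m)
    (x y : Finset (EV (Fin n))) (hx : Good m x) (hy : Good m y)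
    (hxy : x.card = y.card) : f x ↔ f y := by
  classical
  obtain ⟨M₁, M₂, a1, a2, a3, a4, a5⟩ := hx
  obtain ⟨N₁, N₂, b1, b2, b3, b4, b5⟩ := hy
  have dM : Disjoint M₁ M₂ := disjoint_of_subset_left a1 a2.symm
  have dN : Disjoint N₁ N₂ := disjoint_of_subset_left b1 b2.symm
  obtain ⟨σ, h1, h2⟩ := move M₁ M₂ N₁ N₂ a3 b3 dM dN (by omega) (by omega)
  rw [← hinv σ x]
  have c1 : N₁ ⊆ x.image (ep σ) := by
    rw [← h1]
    exact image_subset_image a1
  have c2 : Disjoint N₂ (x.image (ep σ)) := by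
    rw [← h2]
    exact (disjoint_image (ep σ).injective).2 a2
  have c3 : (x.image (ep σ)).card = y.card := by
    rw [card_image_of_injective _ (ep σ).injective, hxy]
  rcases (ne_iff_exists_mem_diff_or A A' hne) with ⟨e₀, h0', h0⟩ | ⟨e₀, h0', h0⟩
  · exact sym_on f hinv M A A' hM hA hA' hrel e₀ h0' h0 N₁ N₂ b3 (by omega) (by omega) _ _ _ rfl
      c1 b1 c2 b2 c3
  · exact sym_on f hinv M A' A hM hA' hA (fun y hy => (hrel y hy).symm) e₀ h0' h0 N₁ N₂ b3
      (by omega) (by omega) _ _ _ rfl c1 b1 c2 b2 c3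
where
  ne_iff_exists_mem_diff_or (A A' : Finset (EV (Fin n))) (hne : A ≠ A') :
      (∃ e₀, e₀ ∈ A' ∧ e₀ ∉ A) ∨ (∃ e₀, e₀ ∈ A ∧ e₀ ∉ A') := by
    by_contra hcon
    push Not at hcon
    apply hne
    ext e
    exact ⟨hcon.2 e, hcon.1 e⟩

/-- a one-sided comparison of two restrictions gives a coincidence -/
theorem coinc_of_dom (hinv : ∀ (σ : Equiv.Perm (Fin n)) (S : Finset (EV (Fin n))),
      f (S.image (ep σ)) ↔ f S)
    (hmono : ∀ S T : Finset (EV (Fin n)), S ⊆ T → f S → f T)
    (M A A' : Finset (EV (Fin n))) (hM : IsMat M) (hA : A ⊆ M) (hA' : A' ⊆ M) (hne : A ≠ A')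
    (hcard : A'.card ≤ A.card) (hrel : ∀ y, Disjoint y M → f (A ∪ y) → f (A' ∪ y)) :
    ∃ B B' : Finset (EV (Fin n)), B ⊆ M ∧ B' ⊆ M ∧ B ≠ B' ∧ B.card ≤ A.card ∧ B'.card ≤ A.card ∧
      A'.card ≤ B.card ∧ A'.card ≤ B'.card ∧
      ∀ y, Disjoint y M → (f (B ∪ y) ↔ f (B' ∪ y)) := by
  classical
  by_cases hsub : A' ⊆ A
  · exact ⟨A, A', hA, hA', hne, le_rfl, hcard, hcard, le_rfl, fun y hy =>
      ⟨hrel y hy, hmono _ _ (union_subset_union_left hsub)⟩⟩
  · have hc1 := card_sdiff_add_card_inter A A'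
    have hc2 := card_sdiff_add_card_inter A' A
    rw [inter_comm] at hc2
    obtain ⟨T, hT1, hT2⟩ := exists_subset_card_eq (s := A \ A') (n := (A' \ A).card) (by omega)
    set T' := A' \ A with hT'
    set K := A ∩ A' with hK
    have dTT' : Disjoint T T' := by
      rw [disjoint_left]
      intro e he he'
      exact (mem_sdiff.1 he').2 (mem_sdiff.1 (hT1 he)).1
    have dKT : Disjoint K T := by
      rw [disjoint_left]
      intro e he he'
      exact (mem_sdiff.1 (hT1 he')).2 (mem_inter.1 he).2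
    have dKT' : Disjoint K T' := by
      rw [disjoint_left]
      intro e he he'
      exact (mem_sdiff.1 he').2 (mem_inter.1 he).1
    have hA'eq : A' = K ∪ T' := by
      ext e
      simp only [hK, hT', mem_union, mem_inter, mem_sdiff]
      tauto
    have hTM : T ⊆ M := (hT1.trans sdiff_subset).trans hA
    have hT'M : T' ⊆ M := sdiff_subset.trans hA'
    have hKM : K ⊆ M := inter_subset_left.trans hA
    have hBA : K ∪ T ⊆ A := union_subset inter_subset_left (hT1.trans sdiff_subset)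
    have cB : (K ∪ T).card = A'.card := by
      rw [card_union_of_disjoint dKT]
      omega
    obtain ⟨β₀, hb1, hb2⟩ := exists_bij2 T T' T' T dTT' hT2 hT2.symm
    have hinj : Set.InjOn β₀ ((T : Set (EV (Fin n))) ∪ T') := by
      rw [Set.injOn_union (by exact_mod_cast dTT')]
      refine ⟨hb1.injOn, hb2.injOn, ?_⟩
      intro a ha b hb hab
      have h1 : β₀ a ∈ T' := hb1.mapsTo ha
      have h2 : β₀ b ∈ T := hb2.mapsTo hb
      rw [hab] at h1
      exact disjoint_left.1 dTT' h2 h1
    have hmaps : ∀ e ∈ T ∪ T', β₀ e ∈ T ∪ T' := by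
      intro e he
      rcases mem_union.1 he with h | h
      · exact mem_union_right _ (hb1.mapsTo h)
      · exact mem_union_left _ (hb2.mapsTo h)
    set β : EV (Fin n) → EV (Fin n) := fun e => if e ∈ T ∪ T' then β₀ e else e with hβ
    have bin : ∀ e, e ∈ T ∪ T' → β e = β₀ e := by
      intro e he
      simp only [hβ, he, if_true]
    have bout : ∀ e, e ∉ T ∪ T' → β e = e := by
      intro e he
      simp only [hβ, he, if_false]
    have hβM : ∀ e ∈ M, β e ∈ M := by
      intro e he
      by_cases h : e ∈ T ∪ T'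
      · rw [bin e h]
        exact (union_subset hTM hT'M) (hmaps e h)
      · rw [bout e h]; exact he
    have hβinj : ∀ e ∈ M, ∀ e' ∈ M, e ≠ e' → β e ≠ β e' := by
      intro e he e' he' hee heq
      by_cases h : e ∈ T ∪ T' <;> by_cases h' : e' ∈ T ∪ T'
      · rw [bin e h, bin e' h'] at heq
        apply hee
        apply hinj _ _ heq
        · rw [← coe_union]; exact h
        · rw [← coe_union]; exact h'
      · rw [bin e h, bout e' h'] at heq
        exact h' (heq ▸ hmaps e h)
      · rw [bout e h, bin e' h'] at heq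
        exact h (heq.symm ▸ hmaps e' h')
      · rw [bout e h, bout e' h'] at heq
        exact hee heq
    have hβdis : ∀ e ∈ M, ∀ e' ∈ M, e ≠ e' → ∀ v, v ∈ (β e).1 → v ∉ (β e').1 :=
      fun e he e' he' hee => hM _ (hβM e he) _ (hβM e' he') (hβinj e he e' he' hee)
    obtain ⟨σ, hσ⟩ := exists_perm M hM β hβdis
    have iK : K.image (ep σ) = K := by
      conv_rhs => rw [← image_id (s := K)]
      apply image_congr
      intro e he
      have he' : e ∈ K := he
      show ep σ e = e
      rw [hσ e (hKM he')]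
      apply bout
      intro h
      rcases mem_union.1 h with h | h
      · exact disjoint_left.1 dKT he' h
      · exact disjoint_left.1 dKT' he' h
    have iT : T.image (ep σ) = T' := by
      rw [← bijOn_image hb1]
      apply image_congr
      intro e he
      have he' : e ∈ T := he
      rw [hσ e (hTM he')]
      exact bin e (mem_union_left _ he')
    have iT' : T'.image (ep σ) = T := by
      rw [← bijOn_image hb2]
      apply image_congr
      intro e he
      have he' : e ∈ T' := he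
      rw [hσ e (hT'M he')]
      exact bin e (mem_union_right _ he')
    have hMi : M.image (ep σ) = M := by
      apply eq_of_subset_of_card_le
      · intro e he
        obtain ⟨e', he', rfl⟩ := mem_image.1 he
        rw [hσ e' he']
        exact hβM e' he'
      · rw [card_image_of_injective _ (ep σ).injective]
    refine ⟨K ∪ T, A', union_subset hKM hTM, hA', ?_, by omega, hcard, by omega, le_rfl, ?_⟩
    · intro h
      apply hsub
      rw [← h]
      exact hBA
    · have hdom : ∀ y, Disjoint y M → f (K ∪ T ∪ y) → f (A' ∪ y) := fun y hy h =>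
        hrel y hy (hmono _ _ (union_subset_union_left hBA) h)
      intro y hy
      refine ⟨hdom y hy, ?_⟩
      intro h
      -- swap the roles of `T` and `T'`
      obtain ⟨y₀, hy₀⟩ : ∃ y₀ : Finset (EV (Fin n)), y₀.image (ep σ) = y :=
        ⟨y.image (ep σ).symm, by rw [image_image]; simp⟩
      have hd : Disjoint y₀ M := by
        have h1 : Disjoint (y₀.image (ep σ)) (M.image (ep σ)) := by
          rw [hy₀, hMi]; exact hy
        exact (disjoint_image (ep σ).injective).1 h1
      have e1 : (K ∪ T ∪ y₀).image (ep σ) = A' ∪ y := by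
        rw [image_union, image_union, iK, iT, hy₀, ← hA'eq]
      have e2 : (A' ∪ y₀).image (ep σ) = K ∪ T ∪ y := by
        rw [hA'eq, image_union, image_union, iK, iT', hy₀]
      have h1 : f (K ∪ T ∪ y₀) := by
        rw [← hinv σ, e1]; exact h
      have h2 : f (A' ∪ y₀) := hdom y₀ hd h1
      rw [← hinv σ, e2] at h2
      exact h2

end Coinc

end Pool.Agent.N389.EV
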