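import Mathlib
import Pool.Agent.H98R2.Ev.Defs
import Pool.Agent.H98R2.Ev.T3
import Pool.Agent.H98R2.Ev.T18
import Pool.Agent.N389.EV.Mat
import Pool.Agent.N389.EV.Trans

set_option autoImplicit false

/-!
A query strategy that never asks all pairs gives a pairing of the graphs; counting the pairs
between two consecutive layers.
-/

namespace Pool.Agent.N389.EV

open Finset Pool.Agent.H98R2.Ev

variable {n : ℕ}

theorem card_EV (n : ℕ) : (univ : Finset (EV (Fin n))).card = n.choose 2 := by
  rw [Finset.card_univ]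
  have := Sym2.card_subtype_not_diag (α := Fin n)
  rw [Fintype.card_fin] at this
  rw [← this]

theorem card_compl_EV (S : Finset (EV (Fin n))) : Sᶜ.card = n.choose 2 - S.card := by
  rw [card_compl, ← card_EV n, card_univ]

theorem card_le_EV (S : Finset (EV (Fin n))) : S.card ≤ n.choose 2 := by
  rw [← card_EV n]
  exact card_le_card (subset_univ _)

theorem iter_card {α : Type} [DecidableEq α] (g : Finset α → α) (k : ℕ) (Q : Finset α) :
    ((fun Q : Finset α => insert (g Q) Q)^[k] Q).card ≤ k + Q.card := by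
  induction k generalizing Q with
  | zero => simp
  | succ k ih =>
    rw [Function.iterate_succ_apply]
    have h1 := ih (insert (g Q) Q)
    have h2 := card_insert_le (g Q) Q
    omega

/-- from a strategy that never asks all pairs to a pairing of the graphs -/
theorem exists_u (hn : 2 ≤ n) (P : SimpleGraph (Fin n) → Prop)
    (s : Finset (Sym2 (Fin n)) → SimpleGraph (Fin n) → Sym2 (Fin n))
    (hs : ∀ (Q : Finset (Sym2 (Fin n))) (G H : SimpleGraph (Fin n)),
      (∀ e ∈ Q, (e ∈ G.edgeSet ↔ e ∈ H.edgeSet)) → s Q G = s Q H)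
    (hbad : ¬ ∃ G H : SimpleGraph (Fin n),
      (∀ e ∈ (fun Q : Finset (Sym2 (Fin n)) => insert (s Q G) Q)^[n.choose 2 - 1]
        (∅ : Finset (Sym2 (Fin n))), (e ∈ G.edgeSet ↔ e ∈ H.edgeSet)) ∧ P G ∧ ¬ P H) :
    ∃ u : Finset (EV (Fin n)) → EV (Fin n), ∀ S T : Finset (EV (Fin n)),
      (∀ e, e ≠ u S → (e ∈ S ↔ e ∈ T)) → u T = u S ∧ (P (toG T) ↔ P (toG S)) := by
  classical
  have hpos : 1 ≤ n.choose 2 := Nat.choose_pos hn
  have hpick : ∀ Q : Finset (Sym2 (Fin n)), ∃ e : EV (Fin n), Q.card ≤ n.choose 2 - 1 →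
      e.1 ∉ Q := by
    intro Q
    by_contra hcon
    push Not at hcon
    have hsub : (univ : Finset (EV (Fin n))).image Subtype.val ⊆ Q := by
      intro x hx
      obtain ⟨e, _, rfl⟩ := mem_image.1 hx
      exact (hcon e).2
    have h1 := card_le_card hsub
    rw [card_image_of_injective _ Subtype.val_injective, card_EV] at h1
    have hne : (univ : Finset (EV (Fin n))).Nonempty := by
      rw [← card_pos, card_EV]; exact hpos
    obtain ⟨e, _⟩ := hne
    have := (hcon e).1
    omega
  choose pick hpick using hpick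
  set Q : SimpleGraph (Fin n) → Finset (Sym2 (Fin n)) := fun G =>
    (fun Q : Finset (Sym2 (Fin n)) => insert (s Q G) Q)^[n.choose 2 - 1]
      (∅ : Finset (Sym2 (Fin n))) with hQ
  have hQc : ∀ G, (Q G).card ≤ n.choose 2 - 1 := by
    intro G
    have := iter_card (fun Q => s Q G) (n.choose 2 - 1) ∅
    simpa using this
  refine ⟨fun S => pick (Q (toG S)), ?_⟩
  intro S T hST
  have hnot : (pick (Q (toG S))).1 ∉ Q (toG S) := hpick _ (hQc _)
  have hag : ∀ e ∈ Q (toG S), (e ∈ (toG S).edgeSet ↔ e ∈ (toG T).edgeSet) := by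
    intro e he
    rw [t3_mem_toG, t3_mem_toG]
    have hne : ∀ h : ¬ e.IsDiag, (⟨e, h⟩ : EV (Fin n)) ≠ pick (Q (toG S)) := by
      intro h heq
      apply hnot
      rw [← heq]
      exact he
    constructor
    · rintro ⟨h, h'⟩
      exact ⟨h, (hST _ (hne h)).1 h'⟩
    · rintro ⟨h, h'⟩
      exact ⟨h, (hST _ (hne h)).2 h'⟩
  have hQeq : Q (toG S) = Q (toG T) := iter_agree18 n s hs (toG S) (toG T) _ ∅ hag
  refine ⟨by simp only [hQeq], ?_, ?_⟩
  · intro hT
    by_contra hS
    exact hbad ⟨toG T, toG S, fun e he => (hag e (by rw [hQeq]; exact he)).symm, hT, hS⟩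
  · intro hS
    by_contra hT
    exact hbad ⟨toG S, toG T, hag, hS, hT⟩

section Count

variable (f : Finset (EV (Fin n)) → Prop) (u : Finset (EV (Fin n)) → EV (Fin n))

open Classical in
theorem layer_card (i : ℕ) :
    ((univ : Finset (Finset (EV (Fin n)))).filter (fun S => S.card = i)).card =
      (n.choose 2).choose i := by
  have h : (univ : Finset (Finset (EV (Fin n)))).filter (fun S => S.card = i) =
      powersetCard i (univ : Finset (EV (Fin n))) := by
    ext S
    simp [mem_powersetCard]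
  rw [h, card_powersetCard, card_EV]

open Classical in
/-- the number of pairs between the layers `i` and `i + 1` -/
theorem low_card (hpos : 1 ≤ n.choose 2)
    (hu : ∀ S T : Finset (EV (Fin n)), (∀ e, e ≠ u S → (e ∈ S ↔ e ∈ T)) → u T = u S) (i : ℕ) :
    ((univ : Finset (Finset (EV (Fin n)))).filter (fun S => S.card = i ∧ u S ∉ S)).card =
      (n.choose 2 - 1).choose i := by
  have hins : ∀ S, u (insert (u S) S) = u S := by
    intro S
    apply hu
    intro e he
    simp [he]
  have her : ∀ S, u (S.erase (u S)) = u S := by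
    intro S
    apply hu
    intro e he
    simp [he]
  have hstep : ∀ i : ℕ,
      ((univ : Finset (Finset (EV (Fin n)))).filter (fun S => S.card = i + 1 ∧ u S ∈ S)).card =
      ((univ : Finset (Finset (EV (Fin n)))).filter (fun S => S.card = i ∧ u S ∉ S)).card := by
    intro i
    apply Finset.card_bij' (fun S _ => S.erase (u S)) (fun S _ => insert (u S) S)
    · intro S hS
      rw [mem_filter] at hS ⊢
      refine ⟨mem_univ _, ?_, ?_⟩
      · rw [card_erase_of_mem hS.2.2, hS.2.1]; rfl
      · rw [her]; simp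
    · intro S hS
      rw [mem_filter] at hS ⊢
      refine ⟨mem_univ _, ?_, ?_⟩
      · rw [card_insert_of_notMem hS.2.2, hS.2.1]
      · rw [hins]; simp
    · intro S hS
      rw [mem_filter] at hS
      simp only [her]
      exact insert_erase hS.2.2
    · intro S hS
      rw [mem_filter] at hS
      simp only [hins]
      exact erase_insert hS.2.2
  have hsplit : ∀ i : ℕ,
      ((univ : Finset (Finset (EV (Fin n)))).filter (fun S => S.card = i ∧ u S ∈ S)).card +
      ((univ : Finset (Finset (EV (Fin n)))).filter (fun S => S.card = i ∧ u S ∉ S)).card =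
      (n.choose 2).choose i := by
    intro i
    rw [← layer_card (n := n) i]
    rw [← card_filter_add_card_filter_not (s := (univ : Finset (Finset (EV (Fin n)))).filter
      (fun S => S.card = i)) (fun S => u S ∈ S)]
    rw [filter_filter, filter_filter]
  induction i with
  | zero =>
    have h1 := hsplit 0
    have h2 : ((univ : Finset (Finset (EV (Fin n)))).filter
        (fun S => S.card = 0 ∧ u S ∈ S)).card = 0 := by
      rw [card_eq_zero, filter_eq_empty_iff]
      rintro S _ ⟨h3, h4⟩
      rw [card_eq_zero] at h3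
      rw [h3] at h4
      simp at h4
    rw [h2, zero_add] at h1
    rw [h1]
    simp
  | succ i ih =>
    have h1 := hsplit (i + 1)
    rw [hstep i, ih] at h1
    obtain ⟨N, hN⟩ : ∃ N, n.choose 2 = N + 1 := ⟨n.choose 2 - 1, by omega⟩
    rw [hN] at h1 ⊢
    rw [Nat.choose_succ_succ] at h1
    simp only [Nat.add_sub_cancel] at h1 ⊢
    have : (N).choose (i + 1) = N.choose (i.succ) := rfl
    omega

open Classical in
/-- vertices of a set of edges -/
noncomputable def vs (S : Finset (EV (Fin n))) : Finset (Fin n) :=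
  S.biUnion (fun e => univ.filter (fun v => v ∈ e.1))

theorem vs_card (S : Finset (EV (Fin n))) : (vs S).card ≤ 2 * S.card := by
  classical
  unfold vs
  refine card_biUnion_le.trans ?_
  calc ∑ e ∈ S, ((univ : Finset (Fin n)).filter (fun v => v ∈ e.1)).card ≤ ∑ e ∈ S, 2 := by
        apply sum_le_sum
        intro e _
        obtain ⟨a, b, hab, _⟩ := ends e
        have : (univ : Finset (Fin n)).filter (fun v => v ∈ e.1) ⊆ {a, b} := by
          intro v hv
          rw [mem_filter, hab, Sym2.mem_iff] at hv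
          simpa using hv.2
        exact (card_le_card this).trans card_le_two
    _ = 2 * S.card := by rw [sum_const, smul_eq_mul, mul_comm]

theorem mem_vs (S : Finset (EV (Fin n))) (e : EV (Fin n)) (he : e ∈ S) (v : Fin n)
    (hv : v ∈ e.1) : v ∈ vs S := by
  classical
  unfold vs
  rw [mem_biUnion]
  exact ⟨e, he, by simp [hv]⟩

/-- a set that has a matching and leaves out many pairs is good -/
theorem good_of (hn : 0 < n) (m : ℕ) (x : Finset (EV (Fin n))) (h : HasM m x)
    (hc : 4 * m * n ≤ n.choose 2 - x.card) : Good m x := by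
  classical
  obtain ⟨M₁, h1, h2, h3⟩ := h
  obtain ⟨M₂, g1, g2, g3, g4⟩ := exists_mat hn xᶜ m (vs M₁) (by
    rw [card_compl_EV]
    refine le_trans (Nat.mul_le_mul_right n ?_) hc
    have := vs_card M₁
    omega)
  refine ⟨M₁, M₂, h1, ?_, ?_, h3, g3⟩
  · rw [disjoint_left]
    intro e he he'
    exact (mem_compl.1 (g1 he)) he'
  · intro e he e' he' hne v hv hv'
    rcases mem_union.1 he with a | a <;> rcases mem_union.1 he' with b | b
    · exact h2 e a e' b hne v hv hv'
    · exact g4 e' b v (mem_vs M₁ e a v hv) hv'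
    · exact g4 e a v (mem_vs M₁ e' b v hv') hv
    · exact g2 e a e' b hne v hv hv'

theorem good_compl (m : ℕ) (x : Finset (EV (Fin n))) (h : Good m x) : Good m xᶜ := by
  classical
  obtain ⟨M₁, M₂, h1, h2, h3, h4, h5⟩ := h
  refine ⟨M₂, M₁, ?_, ?_, ?_, h5, h4⟩
  · intro e he
    rw [mem_compl]
    exact disjoint_left.1 h2 he
  · rw [disjoint_left]
    intro e he he'
    exact (mem_compl.1 he') (h1 he)
  · rwa [union_comm]

/-- the half of the argument with the threshold in the lower half -/
theorem half (hn : 0 < n) (m : ℕ) (hmono : ∀ S T : Finset (EV (Fin n)), S ⊆ T → f S → f T)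
    (j : ℕ) (hj0 : ∀ x, Good (m + 1) x → x.card = j → ¬ f x)
    (hj1 : ∀ x, Good (m + 1) x → x.card = j + 1 → f x) (hmj : m + 1 ≤ j + 1)
    (h2j : 2 * j + 1 ≤ n.choose 2)
    (hu : ∀ S T : Finset (EV (Fin n)), (∀ e, e ≠ u S → (e ∈ S ↔ e ∈ T)) →
      u T = u S ∧ (f T ↔ f S))
    (h8 : 8 * (m + 1) * n + 1 ≤ n.choose 2)
    (S₀ : Finset (EV (Fin n))) (hS0 : ¬ f S₀) (hSM : HasM (m + 1) S₀) (hSn : n < S₀.card) :
    False := by
  classical
  have hgood : ∀ x : Finset (EV (Fin n)), HasM (m + 1) x → x.card ≤ j + 1 → Good (m + 1) x := by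
    intro x hx hxj
    apply good_of hn (m + 1) x hx
    have : 8 * (m + 1) * n = 2 * (4 * (m + 1) * n) := by ring
    omega
  -- the threshold is at least `n`
  have hjn : n ≤ j := by
    by_contra hcon
    obtain ⟨M₁, h1, h2, h3⟩ := hSM
    obtain ⟨x, hx1, hx2, hx3⟩ := exists_subsuperset_card_eq h1 (n := j + 1) (by omega) (by omega)
    have hx : Good (m + 1) x := hgood x ⟨M₁, hx1, h2, h3⟩ (by omega)
    exact hS0 (hmono x S₀ hx2 (hj1 x hx hx3))
  have hsub : (univ : Finset (Finset (EV (Fin n)))).filter (fun S => S.card = j ∧ u S ∉ S) ⊆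
      (univ : Finset (Finset (EV (Fin n)))).filter (fun S => S.card = j ∧ ¬ HasM (m + 1) S) := by
    intro S hS
    rw [mem_filter] at hS ⊢
    refine ⟨mem_univ _, hS.2.1, ?_⟩
    intro hM
    have c1 : (insert (u S) S).card = j + 1 := by
      rw [card_insert_of_notMem hS.2.2, hS.2.1]
    have g1 := hgood S hM (by omega)
    have g2 := hgood (insert (u S) S) (hasM_mono (subset_insert _ _) hM) (by omega)
    have h3 := hj0 S g1 hS.2.1
    have h4 := hj1 _ g2 c1
    have h5 := (hu S (insert (u S) S) (by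
      intro e he
      simp [he])).2
    exact h3 (h5.1 h4)
  have h1 := card_le_card hsub
  rw [low_card u (by omega) (fun S T h => (hu S T h).1) j] at h1
  have h2 := count_noM (n := n) m j
  have h3 := numeric_choose n (2 * m * n) (n.choose 2 - 1) j (by
    have : 8 * (m + 1) * n = 4 * (2 * m * n) + 8 * n := by ring
    omega) hjn hn (by omega)
  exact absurd (h1.trans h2) (not_le.2 h3)

/-- **abstract form** -/
theorem abstract_false (hn : 0 < n) (m : ℕ)
    (hmono : ∀ S T : Finset (EV (Fin n)), S ⊆ T → f S → f T)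
    (gs : ∀ x y, Good (m + 1) x → Good (m + 1) y → x.card = y.card → (f x ↔ f y))
    (hu : ∀ S T : Finset (EV (Fin n)), (∀ e, e ≠ u S → (e ∈ S ↔ e ∈ T)) →
      u T = u S ∧ (f T ↔ f S))
    (h8 : 8 * (m + 1) * n + 1 ≤ n.choose 2)
    (S₀ : Finset (EV (Fin n))) (hS0 : ¬ f S₀) (hSM : HasM (m + 1) S₀) (hSn : n < S₀.card)
    (S₁ : Finset (EV (Fin n))) (hS1 : f S₁) (hSM1 : HasM (m + 1) S₁ᶜ) (hSn1 : n < S₁ᶜ.card) :
    False := by
  classical
  have h8' : 8 * (m + 1) * n = 2 * (4 * (m + 1) * n) := by ring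
  have hmn : (m + 1) * n ≥ m + 1 := Nat.le_mul_of_pos_right _ hn
  have h8'' : 4 * (m + 1) * n = 4 * ((m + 1) * n) := by ring
  -- a matching is good
  have hmg : ∀ M₁ : Finset (EV (Fin n)), IsMat M₁ → M₁.card = m + 1 → Good (m + 1) M₁ := by
    intro M₁ h1 h2
    apply good_of hn (m + 1) M₁ ⟨M₁, Subset.refl _, h1, h2⟩
    omega
  set A : ℕ → Prop := fun k => ∀ x, Good (m + 1) x → x.card = k → f x with hA
  have hA0 : ¬ A (m + 1) := by
    intro h
    obtain ⟨M₁, h1, h2, h3⟩ := hSM
    exact hS0 (hmono _ _ h1 (h M₁ (hmg M₁ h2 h3) h3))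
  have hA1 : A (n.choose 2 - (m + 1)) := by
    intro x hx hxc
    obtain ⟨M₂, h1, h2, h3⟩ := hSM1
    have g : Good (m + 1) M₂ᶜ := good_compl _ _ (hmg M₂ h2 h3)
    have c : M₂ᶜ.card = n.choose 2 - (m + 1) := by rw [card_compl_EV, h3]
    rw [gs x M₂ᶜ hx g (by rw [hxc, c])]
    apply hmono S₁ _ _ hS1
    intro e he
    rw [mem_compl]
    intro he'
    exact (mem_compl.1 (h1 he')) he
  obtain ⟨j, hj1, hj2, hj3, hj4⟩ : ∃ j, m + 1 ≤ j ∧ j + 1 ≤ n.choose 2 - (m + 1) ∧ ¬ A j ∧
      A (j + 1) := by
    by_contra hcon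
    push Not at hcon
    have hind : ∀ k, m + 1 ≤ k → k ≤ n.choose 2 - (m + 1) → ¬ A k := by
      intro k hk
      induction k, hk using Nat.le_induction with
      | base => intro _; exact hA0
      | succ k hk ih =>
        intro hk2
        exact hcon k hk hk2 (ih (by omega))
    exact hind (n.choose 2 - (m + 1)) (by omega) le_rfl hA1
  have hj0 : ∀ x, Good (m + 1) x → x.card = j → ¬ f x := by
    intro x hx hxc hfx
    apply hj3
    intro y hy hyc
    exact (gs x y hx hy (by omega)).1 hfx
  rcases le_or_gt (2 * j + 1) (n.choose 2) with hc | hc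
  · exact half f u hn m hmono j hj0 hj4 (by omega) hc hu h8 S₀ hS0 hSM hSn
  · -- duality
    refine half (fun S => ¬ f Sᶜ) (fun S => u Sᶜ) hn m ?_ (n.choose 2 - 1 - j) ?_ ?_ (by omega)
      (by omega) ?_ h8 S₁ᶜ (by simpa using hS1) hSM1 hSn1
    · intro S T hST h1 h2
      exact h1 (hmono _ _ (compl_subset_compl.2 hST) h2)
    · intro x hx hxc h
      apply h
      apply hj4 xᶜ (good_compl _ _ hx)
      rw [card_compl_EV]
      omega
    · intro x hx hxc
      apply hj0 xᶜ (good_compl _ _ hx)
      rw [card_compl_EV]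
      omega
    · intro S T hST
      have h1 := hu Sᶜ Tᶜ (by
        intro e he
        rw [mem_compl, mem_compl, hST e he])
      exact ⟨h1.1, by rw [h1.2]⟩

end Count

end Pool.Agent.N389.EV
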