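import Mathlib
import Pool.Agent.H98R2.Ev.Defs
import Pool.Agent.H98R2.Ev.T3
import Pool.Agent.H98R2.Ev.T15
import Pool.Agent.H98R2.Ev.T18
import Pool.Agent.N389.EV.Mat
import Pool.Agent.N389.EV.Trans
import Pool.Agent.N389.EV.Cnt
import Pool.Agent.Results.MP_257582_lc.SparseEvasive

set_option autoImplicit false

/-!
Assembly: a monotone graph property with one comparable pair of restrictions to a matching is
evasive (for large `n`).
-/

namespace Pool.Agent.N389.EV

open Finset Pool.Agent.H98R2.Ev Pool.Agent.Results.MP_257582_lc.SparseEvasive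

variable {n : ℕ}

open Classical in
/-- the non-diagonal members of a finite set of unordered pairs -/
noncomputable def lift (S : Finset (Sym2 (Fin n))) : Finset (EV (Fin n)) :=
  univ.filter (fun e => e.1 ∈ S)

theorem mem_lift (S : Finset (Sym2 (Fin n))) (e : EV (Fin n)) : e ∈ lift S ↔ e.1 ∈ S := by
  unfold lift
  simp

theorem lift_union (S T : Finset (Sym2 (Fin n))) : lift (S ∪ T) = lift S ∪ lift T := by
  ext e
  rw [mem_union, mem_lift, mem_lift, mem_lift, mem_union]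

theorem toG_lift (S : Finset (Sym2 (Fin n))) :
    toG (lift S) = SimpleGraph.fromEdgeSet (S : Set (Sym2 (Fin n))) := by
  ext a b
  rw [← SimpleGraph.mem_edgeSet, t3_mem_toG, SimpleGraph.fromEdgeSet_adj]
  constructor
  · rintro ⟨h, h'⟩
    rw [mem_lift] at h'
    exact ⟨h', by simpa using h⟩
  · rintro ⟨h, h'⟩
    refine ⟨by simpa using h', ?_⟩
    rw [mem_lift]
    exact h

theorem lift_card (S : Finset (Sym2 (Fin n))) (h : ∀ e ∈ S, ¬ e.IsDiag) :
    (lift S).card = S.card := by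
  classical
  have h1 : (lift S).image Subtype.val = S := by
    ext x
    rw [mem_image]
    constructor
    · rintro ⟨e, he, rfl⟩
      exact (mem_lift S e).1 he
    · intro hx
      exact ⟨⟨x, h x hx⟩, (mem_lift S _).2 hx, rfl⟩
  conv_rhs => rw [← h1]
  rw [card_image_of_injective _ Subtype.val_injective]

theorem lift_mono {S T : Finset (Sym2 (Fin n))} (h : S ⊆ T) : lift S ⊆ lift T := by
  intro e he
  rw [mem_lift] at he ⊢
  exact h he

open Classical in
/-- the edges of a graph -/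
noncomputable def edg (G : SimpleGraph (Fin n)) : Finset (EV (Fin n)) :=
  univ.filter (fun e => e.1 ∈ G.edgeSet)

theorem mem_edg (G : SimpleGraph (Fin n)) (e : EV (Fin n)) : e ∈ edg G ↔ e.1 ∈ G.edgeSet := by
  unfold edg
  simp

theorem toG_edg (G : SimpleGraph (Fin n)) : toG (edg G) = G := by
  ext a b
  rw [← SimpleGraph.mem_edgeSet, t3_mem_toG, ← SimpleGraph.mem_edgeSet]
  constructor
  · rintro ⟨h, h'⟩
    exact (mem_edg G _).1 h'
  · intro h
    have hd : ¬ (s(a, b) : Sym2 (Fin n)).IsDiag := G.not_isDiag_of_mem_edgeSet h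
    exact ⟨hd, (mem_edg G _).2 h⟩

theorem toG_compl (S : Finset (EV (Fin n))) : toG Sᶜ = (toG S)ᶜ := by
  ext a b
  rw [SimpleGraph.compl_adj, ← SimpleGraph.mem_edgeSet, ← SimpleGraph.mem_edgeSet, t3_mem_toG,
    t3_mem_toG]
  constructor
  · rintro ⟨h, h'⟩
    refine ⟨by simpa using h, ?_⟩
    rintro ⟨_, h''⟩
    exact (mem_compl.1 h') h''
  · rintro ⟨h, h'⟩
    have hd : ¬ (s(a, b) : Sym2 (Fin n)).IsDiag := by simpa using h
    refine ⟨hd, ?_⟩
    rw [mem_compl]
    intro h''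
    exact h' ⟨hd, h''⟩

theorem inv_of_iso (P : SimpleGraph (Fin n) → Prop)
    (hiso : ∀ (σ : Fin n ≃ Fin n) (G : SimpleGraph (Fin n)), P G → P (G.map σ.toEmbedding))
    (σ : Equiv.Perm (Fin n)) (S : Finset (EV (Fin n))) :
    P (toG (S.image (ep σ))) ↔ P (toG S) := by
  classical
  have h1 : ∀ (τ : Equiv.Perm (Fin n)) (T : Finset (EV (Fin n))), P (toG T) →
      P (toG (T.image (ep τ))) := by
    intro τ T hT
    have h2 := hiso τ _ hT
    rw [← toG_map15] at h2
    have h3 : T.map (ev15 τ).toEmbedding = T.image (ep τ) := by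
      rw [map_eq_image]
      rfl
    rwa [h3] at h2
  refine ⟨fun h => ?_, h1 σ S⟩
  have h2 := h1 σ⁻¹ _ h
  rw [image_image] at h2
  have h3 : S.image (⇑(ep σ⁻¹) ∘ ⇑(ep σ)) = S := by
    conv_rhs => rw [← image_id (s := S)]
    apply image_congr
    intro e _
    apply Subtype.ext
    show Sym2.map (⇑(σ⁻¹ : Equiv.Perm (Fin n))) (Sym2.map (⇑σ) e.1) = e.1
    rw [Sym2.map_map]
    simp
  rwa [h3] at h2

theorem thin_cover (c : ℝ) (m : ℕ) (h11 : 11 * (2 * m) ≤ n) (S : Finset (EV (Fin n)))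
    (h : ¬ HasM (m + 1) S) : Thin n c (toG S) := by
  obtain ⟨X, hX1, hX2⟩ := cover S m h
  refine ⟨X, by omega, Or.inl ?_⟩
  have h0 : {e : Sym2 (Fin n) | e ∈ (toG S).edgeSet ∧ ∀ v ∈ X, v ∉ e} = ∅ := by
    rw [Set.eq_empty_iff_forall_notMem]
    rintro e ⟨he, hv⟩
    rw [t3_mem_toG] at he
    obtain ⟨h1, h2⟩ := he
    obtain ⟨v, hvX, hve⟩ := (mem_inc X _).1 (hX2 h2)
    exact hv v hvX hve
  rw [h0, Set.ncard_empty]
  simp only [Nat.cast_zero]
  positivity

theorem thin_small (c : ℝ) (hc : 0 < c) (hn : 1 ≤ n) (S : Finset (EV (Fin n)))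
    (h : S.card ≤ n) : Thin n c (toG S) := by
  classical
  refine ⟨∅, by simp, Or.inl ?_⟩
  have h0 : {e : Sym2 (Fin n) | e ∈ (toG S).edgeSet ∧ ∀ v ∈ (∅ : Finset (Fin n)), v ∉ e} ⊆
      ((S.image Subtype.val : Finset (Sym2 (Fin n))) : Set (Sym2 (Fin n))) := by
    rintro e ⟨he, _⟩
    rw [t3_mem_toG] at he
    obtain ⟨h1, h2⟩ := he
    rw [mem_coe, mem_image]
    exact ⟨_, h2, rfl⟩
  have h1 := Set.ncard_le_ncard h0 (Finset.finite_toSet _)
  rw [Set.ncard_coe_finset] at h1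
  have h2 : (S.image Subtype.val).card ≤ n := card_image_le.trans h
  have hn1 : (1 : ℝ) ≤ n := by exact_mod_cast hn
  calc (({e : Sym2 (Fin n) | e ∈ (toG S).edgeSet ∧
        ∀ v ∈ (∅ : Finset (Fin n)), v ∉ e}.ncard : ℕ) : ℝ) ≤ n := by
        exact_mod_cast h1.trans h2
    _ = (n : ℝ) ^ (1 : ℝ) := (Real.rpow_one _).symm
    _ ≤ _ := Real.rpow_le_rpow_of_exponent_le hn1 (by linarith)

theorem num8 (n : ℕ) (hn : 2000 ≤ n) : 8 * (n / 23 + 3 + 1) * n + 1 ≤ n.choose 2 := by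
  have h1 : 23 * (n / 23) ≤ n := Nat.mul_div_le n 23
  rw [Nat.choose_two_right]
  rw [Nat.le_div_iff_mul_le (by norm_num)]
  obtain ⟨k, rfl⟩ : ∃ k, n = k + 1 := ⟨n - 1, by omega⟩
  simp only [Nat.add_sub_cancel]
  set q := (k + 1) / 23 with hq
  nlinarith

/-- **Main theorem, coincidence form.** -/
theorem main_coinc : ∃ n₀ : ℕ, ∀ n : ℕ, n₀ ≤ n →
    ∀ P : SimpleGraph (Fin n) → Prop,
      (∀ G H : SimpleGraph (Fin n), G ≤ H → P G → P H) →
      (∀ (σ : Fin n ≃ Fin n) (G : SimpleGraph (Fin n)), P G → P (G.map σ.toEmbedding)) →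
      (∃ G : SimpleGraph (Fin n), P G) →
      (∃ G : SimpleGraph (Fin n), ¬ P G) →
      ∀ M A A' : Finset (EV (Fin n)), IsMat M → A ⊆ M → A' ⊆ M → A ≠ A' →
        23 * A.card ≤ n → 23 * A'.card ≤ n → 23 * (M \ A).card ≤ n → 23 * (M \ A').card ≤ n →
        (∀ y : Finset (EV (Fin n)), Disjoint y M → (P (toG (A ∪ y)) ↔ P (toG (A' ∪ y)))) →
      ∀ s : Finset (Sym2 (Fin n)) → SimpleGraph (Fin n) → Sym2 (Fin n),
        (∀ (Q : Finset (Sym2 (Fin n))) (G H : SimpleGraph (Fin n)),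
            (∀ e ∈ Q, (e ∈ G.edgeSet ↔ e ∈ H.edgeSet)) → s Q G = s Q H) →
        ∃ G H : SimpleGraph (Fin n),
          (∀ e ∈ (fun Q : Finset (Sym2 (Fin n)) => insert (s Q G) Q)^[n.choose 2 - 1]
                (∅ : Finset (Sym2 (Fin n))),
              (e ∈ G.edgeSet ↔ e ∈ H.edgeSet)) ∧ P G ∧ ¬ P H := by
  obtain ⟨c, hc, n₁, h₁⟩ := Pool.Agent.Results.MP_257582_lc.SparseEvasive.result
  refine ⟨max n₁ 2000, ?_⟩
  intro n hn P hmono hiso hex hne M A A' hM hA hA' hAA k1 k2 k3 k4 hrel s hs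
  have hn1 : n₁ ≤ n := (le_max_left _ _).trans hn
  have hn2 : 2000 ≤ n := (le_max_right _ _).trans hn
  by_contra hbad
  have hbad' := hbad
  -- non-thin graphs
  have hthin : ¬ ((∀ G : SimpleGraph (Fin n), ¬ P G → Thin n c G) ∨
      (∀ G : SimpleGraph (Fin n), P G → Thin n c Gᶜ)) := fun h =>
    hbad (h₁ n hn1 P hmono hiso hex hne h s hs)
  push Not at hthin
  obtain ⟨⟨G₀, hG0, hT0⟩, ⟨G₁, hG1, hT1⟩⟩ := hthin
  obtain ⟨u, hu⟩ := exists_u (by omega) P s hs hbad'
  set m := n / 23 + 3 with hm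
  have h11 : 11 * (2 * m) ≤ n := by omega
  have hf := inv_of_iso P hiso
  have gs : ∀ x y : Finset (EV (Fin n)), Good (m + 1) x → Good (m + 1) y → x.card = y.card →
      (P (toG x) ↔ P (toG y)) := by
    intro x y hx hy hxy
    exact good_sym (fun S => P (toG S)) hf M A A' hM hA hA' hAA hrel (m + 1) (by omega)
      (by omega) (by omega) (by omega) x y hx hy hxy
  refine abstract_false (fun S => P (toG S)) u (by omega) m
    (fun S T h => hmono _ _ (toG_mono15 h)) gs hu (num8 n hn2) (edg G₀) (by rw [toG_edg]; exact hG0)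
    ?_ ?_ (edg G₁) (by rw [toG_edg]; exact hG1) ?_ ?_
  · by_contra hcon
    apply hT0
    have := thin_cover c m h11 (edg G₀) hcon
    rwa [toG_edg] at this
  · by_contra hcon
    apply hT0
    have := thin_small c hc (by omega) (edg G₀) (not_lt.1 hcon)
    rwa [toG_edg] at this
  · by_contra hcon
    apply hT1
    have := thin_cover c m h11 (edg G₁)ᶜ hcon
    rwa [toG_compl, toG_edg] at this
  · by_contra hcon
    apply hT1
    have := thin_small c hc (by omega) (edg G₁)ᶜ (not_lt.1 hcon)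
    rwa [toG_compl, toG_edg] at this

end Pool.Agent.N389.EV
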