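import Mathlib
import Pool.Agent.H98R2.Ev.Defs
import Pool.Agent.H98R2.Ev.T3
import Pool.Agent.H98R2.Ev.T15
import Pool.Agent.N389.EV.Mat
import Pool.Agent.N389.EV.Trans

set_option autoImplicit false

/-!
Regular graphs contain disjoint matchings of edges and of non-edges; an invariant function with a
coincidence of two restrictions to a matching takes the same value on all regular graphs of the
same degree.
-/

namespace Pool.Agent.N389.EVR

open Finset Pool.Agent.H98R2.Ev Pool.Agent.N389.EV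

variable {n : ℕ}

section Lift

open Classical in
/-- the non-diagonal members of a finite set of unordered pairs -/
noncomputable def lift (S : Finset (Sym2 (Fin n))) : Finset (EV (Fin n)) :=
  univ.filter (fun e => e.1 ∈ S)

theorem mem_lift (S : Finset (Sym2 (Fin n))) (e : EV (Fin n)) : e ∈ lift S ↔ e.1 ∈ S := by
  unfold lift
  simp

theorem lift_union (S T : Finset (Sym2 (Fin n))) : lift (S ∪ T) = lift S ∪ lift T := by
  ext e
  rw [mem_union, mem_lift, mem_lift, mem_lift, mem_union]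

theorem toG_lift (S : Finset (Sym2 (Fin n))) :
    toG (lift S) = SimpleGraph.fromEdgeSet (S : Set (Sym2 (Fin n))) := by
  ext a b
  rw [← SimpleGraph.mem_edgeSet, t3_mem_toG, SimpleGraph.fromEdgeSet_adj]
  constructor
  · rintro ⟨h, h'⟩
    rw [mem_lift] at h'
    exact ⟨h', by simpa using h⟩
  · rintro ⟨h, h'⟩
    refine ⟨by simpa using h', ?_⟩
    rw [mem_lift]
    exact h

theorem lift_card (S : Finset (Sym2 (Fin n))) (h : ∀ e ∈ S, ¬ e.IsDiag) :
    (lift S).card = S.card := by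
  classical
  have h1 : (lift S).image Subtype.val = S := by
    ext x
    rw [mem_image]
    constructor
    · rintro ⟨e, he, rfl⟩
      exact (mem_lift S e).1 he
    · intro hx
      exact ⟨⟨x, h x hx⟩, (mem_lift S _).2 hx, rfl⟩
  conv_rhs => rw [← h1]
  rw [card_image_of_injective _ Subtype.val_injective]

theorem lift_mono {S T : Finset (Sym2 (Fin n))} (h : S ⊆ T) : lift S ⊆ lift T := by
  intro e he
  rw [mem_lift] at he ⊢
  exact h he

open Classical in
/-- the edges of a graph -/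
noncomputable def edg (G : SimpleGraph (Fin n)) : Finset (EV (Fin n)) :=
  univ.filter (fun e => e.1 ∈ G.edgeSet)

theorem mem_edg (G : SimpleGraph (Fin n)) (e : EV (Fin n)) : e ∈ edg G ↔ e.1 ∈ G.edgeSet := by
  unfold edg
  simp

theorem toG_edg (G : SimpleGraph (Fin n)) : toG (edg G) = G := by
  ext a b
  rw [← SimpleGraph.mem_edgeSet, t3_mem_toG, ← SimpleGraph.mem_edgeSet]
  constructor
  · rintro ⟨h, h'⟩
    exact (mem_edg G _).1 h'
  · intro h
    have hd : ¬ (s(a, b) : Sym2 (Fin n)).IsDiag := G.not_isDiag_of_mem_edgeSet h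
    exact ⟨hd, (mem_edg G _).2 h⟩

theorem inv_of_iso (P : SimpleGraph (Fin n) → Prop)
    (hiso : ∀ (σ : Fin n ≃ Fin n) (G : SimpleGraph (Fin n)), P G → P (G.map σ.toEmbedding))
    (σ : Equiv.Perm (Fin n)) (S : Finset (EV (Fin n))) :
    P (toG (S.image (ep σ))) ↔ P (toG S) := by
  classical
  have h1 : ∀ (τ : Equiv.Perm (Fin n)) (T : Finset (EV (Fin n))), P (toG T) →
      P (toG (T.image (ep τ))) := by
    intro τ T hT
    have h2 := hiso τ _ hT
    rw [← toG_map15] at h2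
    have h3 : T.map (ev15 τ).toEmbedding = T.image (ep τ) := by
      rw [map_eq_image]
      rfl
    rwa [h3] at h2
  refine ⟨fun h => ?_, h1 σ S⟩
  have h2 := h1 σ⁻¹ _ h
  rw [image_image] at h2
  have h3 : S.image (⇑(ep σ⁻¹) ∘ ⇑(ep σ)) = S := by
    conv_rhs => rw [← image_id (s := S)]
    apply image_congr
    intro e _
    apply Subtype.ext
    show Sym2.map (⇑(σ⁻¹ : Equiv.Perm (Fin n))) (Sym2.map (⇑σ) e.1) = e.1
    rw [Sym2.map_map]
    simp
  rwa [h3] at h2

end Lift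

section Degrees

/-- number of the pairs of `S` at `v` -/
def dg (S : Finset (EV (Fin n))) (v : Fin n) : ℕ := (S.filter (fun e => v ∈ e.1)).card

theorem two_ends (e : EV (Fin n)) : ((univ : Finset (Fin n)).filter (fun v => v ∈ e.1)).card = 2 := by
  obtain ⟨a, b, hab, hne⟩ := ends e
  have : (univ : Finset (Fin n)).filter (fun v => v ∈ e.1) = {a, b} := by
    ext v
    rw [mem_filter, hab, Sym2.mem_iff]
    simp
  rw [this, card_pair hne]

theorem sum_dg (S : Finset (EV (Fin n))) : ∑ v, dg S v = 2 * S.card := by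
  unfold dg
  have h := sum_card_bipartiteAbove_eq_sum_card_bipartiteBelow
    (s := (univ : Finset (Fin n))) (t := S) (fun v e => v ∈ e.1)
  unfold bipartiteAbove bipartiteBelow at h
  rw [h, sum_congr rfl (fun e _ => two_ends e), sum_const, smul_eq_mul, mul_comm]

theorem card_le_sum_dg (S : Finset (EV (Fin n))) (X : Finset (Fin n)) (h : S ⊆ inc X) :
    S.card ≤ ∑ v ∈ X, dg S v := by
  classical
  have h1 : S ⊆ X.biUnion (fun v => S.filter (fun e => v ∈ e.1)) := by
    intro e he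
    obtain ⟨v, hv, hve⟩ := (mem_inc X e).1 (h he)
    rw [mem_biUnion]
    exact ⟨v, hv, by rw [mem_filter]; exact ⟨he, hve⟩⟩
  exact (card_le_card h1).trans card_biUnion_le

theorem dg_image (S : Finset (EV (Fin n))) (v : Fin n) (Y : Finset (Fin n))
    (h : ∀ e ∈ S, v ∈ e.1 → ∃ w ∈ Y, e.1 = s(v, w)) : dg S v ≤ Y.card := by
  classical
  unfold dg
  rw [← card_image_of_injective _ (Subtype.val_injective (p := fun e : Sym2 (Fin n) => ¬ e.IsDiag))]
  refine le_trans (card_le_card ?_) (card_image_le (s := Y) (f := fun w => s(v, w)))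
  intro x hx
  obtain ⟨e, he, rfl⟩ := mem_image.1 hx
  rw [mem_filter] at he
  obtain ⟨w, hw, hew⟩ := h e he.1 he.2
  rw [mem_image]
  exact ⟨w, hw, hew.symm⟩

theorem dg_le_of_cover (S : Finset (EV (Fin n))) (X : Finset (Fin n)) (h : S ⊆ inc X)
    (v : Fin n) (hv : v ∉ X) : dg S v ≤ X.card := by
  apply dg_image
  intro e he hve
  obtain ⟨x, hx, hxe⟩ := (mem_inc X e).1 (h he)
  refine ⟨x, hx, ?_⟩
  have hne : v ≠ x := fun hh => hv (hh ▸ hx)
  exact ((Sym2.mem_and_mem_iff hne).1 ⟨hve, hxe⟩)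

theorem dg_ge (S : Finset (EV (Fin n))) (v : Fin n) (Y : Finset (Fin n))
    (h : ∀ w ∈ Y, ∃ e ∈ S, e.1 = s(v, w)) : Y.card ≤ dg S v := by
  classical
  unfold dg
  rw [← card_image_of_injective _ (Subtype.val_injective (p := fun e : Sym2 (Fin n) => ¬ e.IsDiag))]
  have hinj : Function.Injective (fun w : Fin n => s(v, w)) := by
    intro w w' hw
    exact Sym2.congr_right.1 hw
  rw [← card_image_of_injective Y hinj]
  apply card_le_card
  intro x hx
  obtain ⟨w, hw, rfl⟩ := mem_image.1 hx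
  obtain ⟨e, he, hew⟩ := h w hw
  rw [mem_image]
  refine ⟨e, ?_, hew⟩
  rw [mem_filter]
  exact ⟨he, by rw [hew]; simp⟩

theorem dg_univ (v : Fin n) : dg (univ : Finset (EV (Fin n))) v = n - 1 := by
  have hc : (univ.erase v : Finset (Fin n)).card = n - 1 := by
    rw [card_erase_of_mem (mem_univ v), card_univ, Fintype.card_fin]
  rw [← hc]
  apply le_antisymm
  · apply dg_image
    intro e _ hve
    obtain ⟨w, hw⟩ := hve
    refine ⟨w, ?_, hw⟩
    rw [mem_erase]
    refine ⟨?_, mem_univ _⟩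
    rintro rfl
    apply e.2
    rw [hw]
    simp
  · apply dg_ge
    intro w hw
    rw [mem_erase] at hw
    exact ⟨⟨s(v, w), by simpa using hw.1.symm⟩, mem_univ _, rfl⟩

theorem dg_compl (S : Finset (EV (Fin n))) (v : Fin n) : dg S v + dg Sᶜ v = n - 1 := by
  classical
  rw [← dg_univ v]
  unfold dg
  rw [← card_union_of_disjoint, ← filter_union, union_compl]
  rw [disjoint_left]
  intro e he he'
  exact (mem_compl.1 (mem_filter.1 he').1) (mem_filter.1 he).1

open Classical in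
theorem dg_edg (G : SimpleGraph (Fin n)) (v : Fin n) : dg (edg G) v = (G.neighborSet v).ncard := by
  have h0 : G.neighborSet v = ((univ.filter (fun w => G.Adj v w) : Finset (Fin n)) :
      Set (Fin n)) := by
    ext w
    simp
  rw [h0, Set.ncard_coe_finset]
  apply le_antisymm
  · apply dg_image
    intro e he hve
    obtain ⟨w, hw⟩ := hve
    refine ⟨w, ?_, hw⟩
    rw [mem_edg, hw, SimpleGraph.mem_edgeSet] at he
    simp [he]
  · apply dg_ge
    intro w hw
    rw [mem_filter] at hw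
    refine ⟨⟨s(v, w), G.not_isDiag_of_mem_edgeSet hw.2⟩, ?_, rfl⟩
    rw [mem_edg]
    exact hw.2

end Degrees

section Good

/-- `x` contains `m₁` disjoint edges and misses `m₂` further edges, all vertex-disjoint -/
def Good2 (m₁ m₂ : ℕ) (x : Finset (EV (Fin n))) : Prop :=
  ∃ M₁ M₂ : Finset (EV (Fin n)), M₁ ⊆ x ∧ Disjoint M₂ x ∧ IsMat (M₁ ∪ M₂) ∧ M₁.card = m₁ ∧
    M₂.card = m₂

theorem good2_compl (m₁ m₂ : ℕ) (x : Finset (EV (Fin n))) (h : Good2 m₁ m₂ xᶜ) :
    Good2 m₂ m₁ x := by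
  classical
  obtain ⟨M₁, M₂, h1, h2, h3, h4, h5⟩ := h
  refine ⟨M₂, M₁, ?_, ?_, ?_, h5, h4⟩
  · intro e he
    by_contra hcon
    exact disjoint_left.1 h2 he (mem_compl.2 hcon)
  · rw [disjoint_left]
    intro e he he'
    exact (mem_compl.1 (h1 he)) he'
  · rwa [union_comm]

open Classical in
/-- vertices of a set of edges -/
noncomputable def vs (S : Finset (EV (Fin n))) : Finset (Fin n) :=
  S.biUnion (fun e => univ.filter (fun v => v ∈ e.1))

theorem vs_card (S : Finset (EV (Fin n))) : (vs S).card ≤ 2 * S.card := by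
  classical
  unfold vs
  refine card_biUnion_le.trans ?_
  calc ∑ e ∈ S, ((univ : Finset (Fin n)).filter (fun v => v ∈ e.1)).card = ∑ e ∈ S, 2 :=
        sum_congr rfl (fun e _ => two_ends e)
    _ ≤ 2 * S.card := by rw [sum_const, smul_eq_mul, mul_comm]

theorem mem_vs (S : Finset (EV (Fin n))) (e : EV (Fin n)) (he : e ∈ S) (v : Fin n)
    (hv : v ∈ e.1) : v ∈ vs S := by
  classical
  unfold vs
  rw [mem_biUnion]
  exact ⟨e, he, by simp [hv]⟩

theorem reg_good (S : Finset (EV (Fin n))) (d : ℕ) (hd : 0 < d) (hreg : ∀ v, dg S v = d)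
    (hd2 : 2 * d ≤ n - 1) (m₁ m₂ : ℕ) (h1 : 1 ≤ m₁) (h2 : 1 ≤ m₂)
    (hm : 4 * (m₁ + m₂) ≤ n - 1) : Good2 m₁ m₂ S := by
  classical
  obtain ⟨k₁, rfl⟩ : ∃ k, m₁ = k + 1 := ⟨m₁ - 1, by omega⟩
  obtain ⟨k₂, rfl⟩ : ∃ k, m₂ = k + 1 := ⟨m₂ - 1, by omega⟩
  -- a matching of edges
  have hM1 : HasM (k₁ + 1) S := by
    by_contra hcon
    obtain ⟨X, hX1, hX2⟩ := cover S k₁ hcon
    have e1 := card_le_sum_dg S X hX2
    have e2 := sum_dg S
    simp only [hreg, sum_const, smul_eq_mul, card_univ, Fintype.card_fin] at e1 e2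
    have e3 : n * d ≤ 4 * k₁ * d := by
      calc n * d = 2 * S.card := e2
        _ ≤ 2 * (X.card * d) := by omega
        _ ≤ 2 * ((2 * k₁) * d) := Nat.mul_le_mul_left 2 (Nat.mul_le_mul_right d hX1)
        _ = 4 * k₁ * d := by ring
    have e4 := Nat.le_of_mul_le_mul_right e3 hd
    omega
  obtain ⟨M₁, a1, a2, a3⟩ := hM1
  have hM2 : ∃ M₂ ⊆ Sᶜ, IsMat M₂ ∧ M₂.card = k₂ + 1 ∧ Avd M₂ (vs M₁) := by
    by_contra hcon
    obtain ⟨X, hX1, hX2⟩ := cover_aux Sᶜ k₂ (vs M₁) hcon
    have e1 := vs_card M₁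
    have hXn : X.card < n := by omega
    obtain ⟨v, hv⟩ : ∃ v, v ∉ X := by
      by_contra hcon2
      push Not at hcon2
      have : X = univ := by
        ext w; simp [hcon2 w]
      rw [this, card_univ, Fintype.card_fin] at hXn
      omega
    have e2 := dg_le_of_cover Sᶜ X hX2 v hv
    have e3 := dg_compl S v
    rw [hreg] at e3
    omega
  obtain ⟨M₂, b1, b2, b3, b4⟩ := hM2
  refine ⟨M₁, M₂, a1, ?_, ?_, a3, b3⟩
  · rw [disjoint_left]
    intro e he he'
    exact (mem_compl.1 (b1 he)) he'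
  · intro e he e' he' hne v hv hv'
    rcases mem_union.1 he with a | a <;> rcases mem_union.1 he' with b | b
    · exact a2 e a e' b hne v hv hv'
    · exact b4 e' b v (mem_vs M₁ e a v hv) hv'
    · exact b4 e a v (mem_vs M₁ e' b v hv') hv
    · exact b2 e a e' b hne v hv hv'

/-- every regular graph, neither empty nor complete, is good -/
theorem reg_good' (S : Finset (EV (Fin n))) (d : ℕ) (hd : 0 < d) (hd' : d < n - 1)
    (hreg : ∀ v, dg S v = d) (m₁ m₂ : ℕ) (h1 : 1 ≤ m₁) (h2 : 1 ≤ m₂)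
    (hm : 4 * (m₁ + m₂) ≤ n - 1) : Good2 m₁ m₂ S := by
  classical
  rcases le_or_gt (2 * d) (n - 1) with h | h
  · exact reg_good S d hd hreg h m₁ m₂ h1 h2 hm
  · apply good2_compl
    refine reg_good Sᶜ (n - 1 - d) (by omega) ?_ (by omega) m₂ m₁ h2 h1 (by omega)
    intro v
    have := dg_compl S v
    rw [hreg] at this
    omega

variable (f : Finset (EV (Fin n)) → Prop)

/-- a coincidence makes the value on good graphs a function of the number of edges -/
theorem coinc_sym (hinv : ∀ (σ : Equiv.Perm (Fin n)) (S : Finset (EV (Fin n))),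
      f (S.image (ep σ)) ↔ f S)
    (M A A' : Finset (EV (Fin n))) (hM : IsMat M) (hA : A ⊆ M) (hA' : A' ⊆ M) (hne : A ≠ A')
    (hrel : ∀ y, Disjoint y M → (f (A ∪ y) ↔ f (A' ∪ y))) :
    ∃ m₁ m₂ : ℕ, 1 ≤ m₁ ∧ 1 ≤ m₂ ∧ m₁ + m₂ = M.card + 7 ∧ ∀ x y : Finset (EV (Fin n)),
      Good2 m₁ m₂ x → Good2 m₁ m₂ y → x.card = y.card → (f x ↔ f y) := by
  classical
  have main : ∀ A A' : Finset (EV (Fin n)), A ⊆ M → A' ⊆ M →
      (∀ y, Disjoint y M → (f (A ∪ y) ↔ f (A' ∪ y))) → (∃ e₀, e₀ ∈ A' ∧ e₀ ∉ A) →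
      ∃ m₁ m₂ : ℕ, 1 ≤ m₁ ∧ 1 ≤ m₂ ∧ m₁ + m₂ = M.card + 7 ∧ ∀ x y : Finset (EV (Fin n)),
      Good2 m₁ m₂ x → Good2 m₁ m₂ y → x.card = y.card → (f x ↔ f y) := by
    rintro A A' hA hA' hrel ⟨e₀, h0', h0⟩
    have hc : (M \ A').card = M.card - A'.card := card_sdiff_of_subset hA'
    have hc2 := card_le_card hA'
    refine ⟨A'.card + 3, (M \ A').card + 4, by omega, by omega, by omega, ?_⟩
    intro x y hx hy hxy
    obtain ⟨M₁, M₂, a1, a2, a3, a4, a5⟩ := hx
    obtain ⟨N₁, N₂, b1, b2, b3, b4, b5⟩ := hy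
    have dM : Disjoint M₁ M₂ := disjoint_of_subset_left a1 a2.symm
    have dN : Disjoint N₁ N₂ := disjoint_of_subset_left b1 b2.symm
    obtain ⟨σ, h1, h2⟩ := move M₁ M₂ N₁ N₂ a3 b3 dM dN (by omega) (by omega)
    rw [← hinv σ x]
    have c1 : N₁ ⊆ x.image (ep σ) := by
      rw [← h1]
      exact image_subset_image a1
    have c2 : Disjoint N₂ (x.image (ep σ)) := by
      rw [← h2]
      exact (disjoint_image (ep σ).injective).2 a2
    have c3 : (x.image (ep σ)).card = y.card := by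
      rw [card_image_of_injective _ (ep σ).injective, hxy]
    exact sym_on f hinv M A A' hM hA hA' hrel e₀ h0' h0 N₁ N₂ b3 (by omega) (by omega) _ _ _ rfl
        c1 b1 c2 b2 c3
  by_cases hcase : ∃ e₀, e₀ ∈ A' ∧ e₀ ∉ A
  · exact main A A' hA hA' hrel hcase
  · have hcase2 : ∃ e₀, e₀ ∈ A ∧ e₀ ∉ A' := by
      by_contra hcon
      push Not at hcon hcase
      apply hne
      ext e
      exact ⟨hcon e, hcase e⟩
    exact main A' A hA' hA (fun y hy => (hrel y hy).symm) hcase2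

end Good

end Pool.Agent.N389.EVR
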